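import Pool.Agent.R563.SPca.Rep

set_option autoImplicit false

/-! # The conditional law as signal plus noise -/

noncomputable section

namespace Pool.Agent.R563.SPca

open MeasureTheory ProbabilityTheory Finset Complex
open scoped RealInnerProductSpace

theorem posSemidef_cov {n : ℕ} {β : ℝ} (hβ : 0 ≤ β) (x : Fin n → ℝ) :
    (1 + β • Matrix.vecMulVec x x).PosSemidef := by
  apply Matrix.PosSemidef.one.add
  apply Matrix.PosSemidef.smul _ hβ
  have := Matrix.posSemidef_vecMulVec_self_star x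
  simpa using this

/-- one column: noise plus a multiple of `x` -/
def colMap {n : ℕ} (β : ℝ) (x : Fin n → ℝ) (p : EuclideanSpace ℝ (Fin n) × ℝ) :
    EuclideanSpace ℝ (Fin n) := p.1 + (√β * p.2) • WithLp.toLp 2 x

theorem measurable_colMap {n : ℕ} (β : ℝ) (x : Fin n → ℝ) : Measurable (colMap β x) := by
  unfold colMap
  fun_prop

theorem column_eq {n : ℕ} {β : ℝ} (hβ : 0 ≤ β) (x : Fin n → ℝ) :
    multivariateGaussian (0 : EuclideanSpace ℝ (Fin n)) (1 + β • Matrix.vecMulVec x x)
      = ((stdGaussian (EuclideanSpace ℝ (Fin n))).prod (gaussianReal 0 1)).map (colMap β x) := by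
  have : IsProbabilityMeasure (((stdGaussian (EuclideanSpace ℝ (Fin n))).prod
      (gaussianReal 0 1)).map (colMap β x)) :=
    Measure.isProbabilityMeasure_map (measurable_colMap β x).aemeasurable
  apply Measure.ext_of_charFun
  funext t
  rw [charFun_multivariateGaussian (posSemidef_cov hβ x), charFun_apply,
    integral_map (measurable_colMap β x).aemeasurable
      (by fun_prop : Measurable fun y : EuclideanSpace ℝ (Fin n) =>
        cexp (⟪y, t⟫ * I)).aestronglyMeasurable]
  have h1 : ∀ p : EuclideanSpace ℝ (Fin n) × ℝ, cexp (⟪colMap β x p, t⟫ * I)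
      = cexp (⟪p.1, t⟫ * I) * cexp ((√β * ⟪WithLp.toLp 2 x, t⟫ * p.2 : ℝ) * I) := by
    intro p
    rw [← Complex.exp_add]
    congr 1
    unfold colMap
    rw [inner_add_left, real_inner_smul_left]
    push_cast
    ring
  simp only [h1]
  rw [integral_prod_mul (fun v : EuclideanSpace ℝ (Fin n) => cexp (⟪v, t⟫ * I))
    (fun y : ℝ => cexp ((√β * ⟪WithLp.toLp 2 x, t⟫ * y : ℝ) * I)), ← charFun_apply,
    charFun_stdGaussian]
  have h2 : ∫ y : ℝ, cexp ((√β * ⟪WithLp.toLp 2 x, t⟫ * y : ℝ) * I) ∂(gaussianReal 0 1)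
      = cexp (-((√β * ⟪WithLp.toLp 2 x, t⟫ : ℝ) ^ 2 / 2 : ℂ)) := by
    have h3 := charFun_gaussianReal (μ := 0) (v := 1) (√β * ⟪WithLp.toLp 2 x, t⟫)
    rw [charFun_apply_real] at h3
    have h4 : ∀ y : ℝ, cexp ((√β * ⟪WithLp.toLp 2 x, t⟫ * y : ℝ) * I)
        = cexp (((√β * ⟪WithLp.toLp 2 x, t⟫ : ℝ) : ℂ) * (y : ℂ) * I) := by
      intro y
      push_cast
      ring_nf
    simp only [h4]
    rw [h3]
    congr 1
    simp
  rw [h2, ← Complex.exp_add]
  congr 1
  have h5 : t.ofLp ⬝ᵥ (1 + β • Matrix.vecMulVec x x).mulVec t.ofLp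
      = ‖t‖ ^ 2 + β * ⟪WithLp.toLp 2 x, t⟫ ^ 2 := by
    rw [Matrix.add_mulVec, Matrix.one_mulVec, Matrix.smul_mulVec, dotProduct_add,
      dotProduct_smul, Matrix.vecMulVec_mulVec]
    have h6 : ⟪WithLp.toLp 2 x, t⟫ = x ⬝ᵥ t.ofLp := by
      simp [PiLp.inner_apply, dotProduct, mul_comm]
    rw [h6, EuclideanSpace.real_norm_sq_eq]
    simp only [dotProduct, Pi.smul_apply, MulOpposite.smul_eq_mul_unop, MulOpposite.unop_op,
      smul_eq_mul]
    rw [pow_two (∑ i, x i * t.ofLp i)]
    have h7 : ∑ i, t.ofLp i * (x i * ∑ i, x i * t.ofLp i)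
        = (∑ i, x i * t.ofLp i) * ∑ i, x i * t.ofLp i := by
      rw [Finset.sum_mul]
      exact Finset.sum_congr rfl fun i _ => by ring
    rw [h7]
    congr 1
    exact Finset.sum_congr rfl fun i _ => by ring
  rw [h5, inner_zero_right]
  have h8 : ((√β * ⟪WithLp.toLp 2 x, t⟫ : ℝ) : ℂ) ^ 2 = ((β * ⟪WithLp.toLp 2 x, t⟫ ^ 2 : ℝ) : ℂ) := by
    rw [← Complex.ofReal_pow, mul_pow, Real.sq_sqrt hβ]
  rw [h8]
  push_cast
  ring

/-- the noisy entries -/
def yE {n N : ℕ} (β : ℝ) (x : Fin n → ℝ) (p : (Fin N → EuclideanSpace ℝ (Fin n)) × (Fin N → ℝ))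
    (e : Fin n × Fin N) : ℝ := gE p.1 e + √β * x e.1 * p.2 e.2

theorem measurable_yE {n N : ℕ} (β : ℝ) (x : Fin n → ℝ) :
    Measurable (fun p : (Fin N → EuclideanSpace ℝ (Fin n)) × (Fin N → ℝ) => yE β x p) := by
  unfold yE gE
  apply measurable_pi_lambda
  intro e
  fun_prop

theorem condLaw_eq {n N : ℕ} {β : ℝ} (hβ : 0 ≤ β) (x : Fin n → ℝ) :
    condLaw n N β x = ((muG n N).prod (muU N)).map (yE β x) := by
  have h1 : (Measure.pi fun _ : Fin N => multivariateGaussian (0 : EuclideanSpace ℝ (Fin n))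
      (1 + β • Matrix.vecMulVec x x))
      = (Measure.pi fun _ : Fin N => (stdGaussian (EuclideanSpace ℝ (Fin n))).prod
        (gaussianReal 0 1)).map (fun ω j => colMap β x (ω j)) := by
    have : ∀ _ : Fin N, SigmaFinite (((stdGaussian (EuclideanSpace ℝ (Fin n))).prod
        (gaussianReal 0 1)).map (colMap β x)) := by
      intro _
      have : IsProbabilityMeasure (((stdGaussian (EuclideanSpace ℝ (Fin n))).prod
        (gaussianReal 0 1)).map (colMap β x)) :=
        Measure.isProbabilityMeasure_map (measurable_colMap β x).aemeasurable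
      infer_instance
    rw [column_eq hβ x]
    exact (Measure.pi_map_pi fun _ => (measurable_colMap β x).aemeasurable).symm
  have h2 := measurePreserving_arrowProdEquivProdArrow (EuclideanSpace ℝ (Fin n)) ℝ (Fin N)
    (fun _ => stdGaussian (EuclideanSpace ℝ (Fin n))) (fun _ => gaussianReal 0 1)
  unfold condLaw
  have hm1 : Measurable (fun (y : Fin N → EuclideanSpace ℝ (Fin n)) (e : Fin n × Fin N) =>
      y e.2 e.1) := by
    apply measurable_pi_lambda
    intro e
    fun_prop
  have hm2 : Measurable (fun (ω : Fin N → EuclideanSpace ℝ (Fin n) × ℝ) (j : Fin N) =>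
      colMap β x (ω j)) := by
    apply measurable_pi_lambda
    intro j
    exact (measurable_colMap β x).comp (measurable_pi_apply j)
  rw [h1, Measure.map_map hm1 hm2]
  unfold muG muU
  rw [← h2.map_eq, Measure.map_map (measurable_yE β x) h2.measurable]
  congr 1
  funext ω
  funext e
  change (ω e.2).1 e.1 + (√β * (ω e.2).2) * x e.1 = (ω e.2).1 e.1 + √β * x e.1 * (ω e.2).2
  ring

instance {n N : ℕ} {β : ℝ} (x : Fin n → ℝ) : IsProbabilityMeasure (condLaw n N β x) := by
  unfold condLaw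
  apply Measure.isProbabilityMeasure_map
  apply Measurable.aemeasurable
  apply measurable_pi_lambda
  intro e
  fun_prop

theorem yE_nice {n N : ℕ} (β : ℝ) (x : Fin n → ℝ) (e : Fin n × Fin N) :
    Nice ((muG n N).prod (muU N)) (fun p => yE β x p e) := by
  have h1 : Nice ((muG n N).prod (muU N)) (fun p => gE p.1 e) :=
    (muG_nice e).comp measurePreserving_fst
  have h2 : Nice ((muG n N).prod (muU N)) (fun p => p.2 e.2) :=
    (null_nice e.2).comp measurePreserving_snd
  exact h1.add ((Nice.const (√β * x e.1)).mul h2)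

theorem Nice.of_map {Ω Ω' : Type} [MeasurableSpace Ω] [MeasurableSpace Ω'] {ν : Measure Ω}
    {g : Ω → Ω'} (hg : Measurable g) {f : Ω' → ℝ} (hf : Measurable f)
    (h : Nice ν (fun ω => f (g ω))) : Nice (ν.map g) f := by
  refine ⟨hf.aestronglyMeasurable, fun m => ?_⟩
  rw [integrable_map_measure]
  · exact h.2 m
  · apply Measurable.aestronglyMeasurable
    exact (continuous_abs.measurable.comp hf).pow_const m
  · exact hg.aemeasurable

theorem cond_nice {n N : ℕ} {β : ℝ} (hβ : 0 ≤ β) (x : Fin n → ℝ)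
    (p : MvPolynomial (Fin n × Fin N) ℝ) :
    Nice (condLaw n N β x) (fun Y => MvPolynomial.eval Y p) := by
  have hcoord : ∀ e : Fin n × Fin N, Nice (condLaw n N β x) (fun Y => Y e) := by
    intro e
    rw [condLaw_eq hβ x]
    exact Nice.of_map (ν := (muG n N).prod (muU N)) (g := yE β x) (f := fun Y => Y e)
      (measurable_yE β x) (measurable_pi_apply e) (yE_nice β x e)
  have h := Nice.eval (ν := condLaw n N β x) (σ := Fin n × Fin N) (Y := fun e Y => Y e) hcoord p
  exact h

/-- the conditional expectation as an iterated integral -/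
theorem cond_integral {n N : ℕ} {β : ℝ} (hβ : 0 ≤ β) (x : Fin n → ℝ)
    (p : MvPolynomial (Fin n × Fin N) ℝ) :
    ∫ Y, MvPolynomial.eval Y p ∂(condLaw n N β x)
      = ∫ u, ∫ ω, MvPolynomial.eval (fun e => gE ω e + √β * x e.1 * u e.2) p
        ∂(muG n N) ∂(muU N) := by
  have h1 : Integrable (fun q : (Fin N → EuclideanSpace ℝ (Fin n)) × (Fin N → ℝ) =>
      MvPolynomial.eval (yE β x q) p) ((muG n N).prod (muU N)) :=
    (Nice.eval (Y := fun e q => yE β x q e) (fun e => yE_nice β x e) p).integrable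
  rw [condLaw_eq hβ x, integral_map (measurable_yE β x).aemeasurable, integral_prod_symm _ h1]
  · rfl
  · have := (cond_nice hβ x p).1
    rw [condLaw_eq hβ x] at this
    exact this

end Pool.Agent.R563.SPca
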