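import Pool.Agent.R563.SPca.Inner

set_option autoImplicit false

/-! # Cycles in the complete bipartite graph -/

noncomputable section

namespace Pool.Agent.R563.SPca

open Finset

/-- the edges of a cycle of length `2 (m + 2)` -/
abbrev Pos (m : ℕ) : Type := Fin (m + 2) × Bool

/-- the row of an edge -/
def rowP {m : ℕ} (p : Pos m) : Fin (m + 2) := if p.2 = true then p.1 + 1 else p.1

/-- labelled cycles -/
abbrev Idx (n N m : ℕ) : Type := (Fin (m + 2) ↪ Fin n) × (Fin (m + 2) ↪ Fin N)

theorem rowP_inj {m : ℕ} {p q : Pos m} (h1 : rowP p = rowP q) (h2 : p.1 = q.1) : p = q := by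
  obtain ⟨t, b⟩ := p
  obtain ⟨t', b'⟩ := q
  simp only at h2
  subst h2
  have h3 : t + 1 ≠ t := by
    intro h
    have : (1 : Fin (m + 2)) = 0 := by
      have h4 := congrArg (fun x => x - t) h
      simp at h4
    simp at this
  cases b <;> cases b'
  · rfl
  · simp [rowP] at h1
  · simp [rowP] at h1
  · rfl

/-- the entries of the matrix along a cycle -/
def ent {n N m : ℕ} (i : Idx n N m) : Pos m ↪ (Fin n × Fin N) where
  toFun p := (i.1 (rowP p), i.2 p.1)
  inj' := by
    intro p q h
    simp only [Prod.mk.injEq] at h
    exact rowP_inj (i.1.injective h.1) (i.2.injective h.2)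

theorem ent_apply {n N m : ℕ} (i : Idx n N m) (p : Pos m) :
    ent i p = (i.1 (rowP p), i.2 p.1) := rfl

/-! ### The number of labellings of a cycle -/

theorem ent_det {n N m : ℕ} {i j : Idx n N m}
    (h : (univ : Finset (Pos m)).map (ent i) = (univ : Finset (Pos m)).map (ent j))
    (h0 : ent i (0, false) = ent j (0, false)) : i = j := by
  have hmem : ∀ (k : Idx n N m) (x : Fin n × Fin N), x ∈ (univ : Finset (Pos m)).map (ent k)
      ↔ ∃ t, x = (k.1 t, k.2 t) ∨ x = (k.1 (t + 1), k.2 t) := by
    intro k x
    rw [Finset.mem_map]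
    constructor
    · rintro ⟨⟨t, b⟩, _, rfl⟩
      refine ⟨t, ?_⟩
      cases b
      · left; simp [ent_apply, rowP]
      · right; simp [ent_apply, rowP]
    · rintro ⟨t, ht | ht⟩
      · exact ⟨(t, false), Finset.mem_univ _, by rw [ht]; simp [ent_apply, rowP]⟩
      · exact ⟨(t, true), Finset.mem_univ _, by rw [ht]; simp [ent_apply, rowP]⟩
  have hne : ∀ t : Fin (m + 1), (t.succ : Fin (m + 2)) ≠ t.castSucc := by
    intro t h
    have := congrArg Fin.val h
    simp at this
  have hsucc : ∀ t : Fin (m + 1), (t.castSucc : Fin (m + 2)) + 1 = t.succ := by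
    intro t; exact Fin.coeSucc_eq_succ
  have key : ∀ t : Fin (m + 2), i.1 t = j.1 t ∧ i.2 t = j.2 t := by
    intro t
    induction t using Fin.induction with
    | zero =>
      rw [ent_apply, ent_apply] at h0
      simp only [rowP, Bool.false_eq_true, if_false, Prod.mk.injEq] at h0
      exact h0
    | succ t ih =>
      have h1 : i.1 t.succ = j.1 t.succ := by
        have h2 : (i.1 t.succ, i.2 t.castSucc) ∈ (univ : Finset (Pos m)).map (ent j) := by
          rw [← h, hmem]
          exact ⟨t.castSucc, Or.inr (by rw [hsucc])⟩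
        rw [hmem] at h2
        obtain ⟨s, hs | hs⟩ := h2
        · rw [Prod.mk.injEq] at hs
          have h3 : s = t.castSucc := by
            apply j.2.injective
            rw [← hs.2, ih.2]
          rw [h3] at hs
          exfalso
          apply hne t
          apply i.1.injective
          rw [hs.1, ih.1]
        · rw [Prod.mk.injEq] at hs
          have h3 : s = t.castSucc := by
            apply j.2.injective
            rw [← hs.2, ih.2]
          rw [h3, hsucc] at hs
          exact hs.1
      refine ⟨h1, ?_⟩
      have h2 : (i.1 t.succ, i.2 t.succ) ∈ (univ : Finset (Pos m)).map (ent j) := by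
        rw [← h, hmem]
        exact ⟨t.succ, Or.inl rfl⟩
      rw [hmem] at h2
      obtain ⟨s, hs | hs⟩ := h2
      · rw [Prod.mk.injEq] at hs
        have h3 : s = t.succ := by
          apply j.1.injective
          rw [← hs.1, h1]
        rw [h3] at hs
        exact hs.2
      · rw [Prod.mk.injEq] at hs
        have h3 : s + 1 = t.castSucc + 1 := by
          apply j.1.injective
          rw [← hs.1, h1, hsucc]
        have h4 : s = t.castSucc := add_right_cancel h3
        rw [h4] at hs
        exfalso
        apply hne t
        apply i.2.injective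
        rw [hs.2, ih.2]
  obtain ⟨a, b⟩ := i
  obtain ⟨a', b'⟩ := j
  simp only at key
  rw [Prod.mk.injEq]
  exact ⟨DFunLike.ext _ _ fun t => (key t).1, DFunLike.ext _ _ fun t => (key t).2⟩

open Classical in
theorem count_le {n N m : ℕ} (i : Idx n N m) :
    ∑ j : Idx n N m, (if (univ : Finset (Pos m)).map (ent i) = (univ : Finset (Pos m)).map (ent j)
      then (1 : ℝ) else 0) ≤ 2 * (m + 2) := by
  rw [Finset.sum_boole]
  have h1 : ((univ : Finset (Idx n N m)).filter fun j => (univ : Finset (Pos m)).map (ent i)
      = (univ : Finset (Pos m)).map (ent j)).card ≤ (univ : Finset (Pos m)).card := by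
    have h2 : ∀ j : Idx n N m, ∃ p : Pos m, (univ : Finset (Pos m)).map (ent i)
        = (univ : Finset (Pos m)).map (ent j) → ent i p = ent j (0, false) := by
      intro j
      by_cases hj : (univ : Finset (Pos m)).map (ent i) = (univ : Finset (Pos m)).map (ent j)
      · have h3 : ent j (0, false) ∈ (univ : Finset (Pos m)).map (ent i) := by
          rw [hj, Finset.mem_map]
          exact ⟨_, Finset.mem_univ _, rfl⟩
        rw [Finset.mem_map] at h3
        obtain ⟨p, _, hp⟩ := h3
        exact ⟨p, fun _ => hp⟩
      · exact ⟨(0, false), fun h => absurd h hj⟩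
    choose f hf using h2
    refine Finset.card_le_card_of_injOn f ?_ ?_
    · intro j _
      exact Finset.mem_coe.2 (Finset.mem_univ _)
    · intro j hj j' hj' heq
      rw [Finset.mem_coe, Finset.mem_filter] at hj hj'
      apply ent_det (hj.2.symm.trans hj'.2)
      rw [← hf j hj.2, ← hf j' hj'.2, heq]
  have h4 : (univ : Finset (Pos m)).card = 2 * (m + 2) := by
    rw [Finset.card_univ, Fintype.card_prod, Fintype.card_fin, Fintype.card_bool]; ring
  rw [h4] at h1
  exact_mod_cast h1

end Pool.Agent.R563.SPca
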