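import Mathlib

set_option autoImplicit false

/-! # The sparse PCA model -/

noncomputable section

namespace Pool.Agent.R563.SPca

open MeasureTheory ProbabilityTheory

/-- the null law: an `n × N` matrix with independent standard Gaussian entries -/
def nullLaw (n N : ℕ) : Measure (Fin n × Fin N → ℝ) := Measure.pi fun _ => gaussianReal 0 1

/-- the law of the observation given `x`: the `N` columns are independent with law
`N(0, I + β x xᵀ)` -/
def condLaw (n N : ℕ) (β : ℝ) (x : Fin n → ℝ) : Measure (Fin n × Fin N → ℝ) :=
  (Measure.pi fun _ : Fin N =>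
    multivariateGaussian (0 : EuclideanSpace ℝ (Fin n)) (1 + β • Matrix.vecMulVec x x)).map
    fun y e => y e.2 e.1

/-- the probability of the value `s / √k` of a coordinate of `x`: `1 - k / n` for `s = 0` and
`k / (2 n)` for `s = 1` and for `s = -1` -/
def signWt (k : ℝ) (n : ℕ) (s : SignType) : ℝ := if s = 0 then 1 - k / n else k / (2 * n)

/-- the planted law: the coordinates of `x` are independent with law `signWt`, scaled by `1 / √k` -/
def plantedLaw (n N : ℕ) (k β : ℝ) : Measure (Fin n × Fin N → ℝ) :=
  ∑ s : Fin n → SignType, ENNReal.ofReal (∏ i, signWt k n (s i)) •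
    condLaw n N β (fun i => (s i : ℝ) / √k)

/-- strong separation of the planted laws `P n` and the null laws `Q n` by the polynomials `f n` -/
def StronglySeparates (N : ℕ → ℕ) (P Q : (n : ℕ) → Measure (Fin n × Fin (N n) → ℝ))
    (f : (n : ℕ) → MvPolynomial (Fin n × Fin (N n)) ℝ) : Prop :=
  (fun n => √(max Var[fun Y => MvPolynomial.eval Y (f n); P n]
      Var[fun Y => MvPolynomial.eval Y (f n); Q n]))
    =o[Filter.atTop] fun n => ∫ Y, MvPolynomial.eval Y (f n) ∂(P n)
      - ∫ Y, MvPolynomial.eval Y (f n) ∂(Q n)

end Pool.Agent.R563.SPca
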