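import Pool.Agent.R563.SPca.Cyc

set_option autoImplicit false

/-! # Bounds for the sums over pairs of cycles -/

noncomputable section

namespace Pool.Agent.R563.SPca

open Finset

variable {n N m : ℕ}

/-- the number of missing edges at row `t` -/
def rdeg (S : Finset (Pos m)) (t : Fin (m + 2)) : ℕ := ((Sᶜ).filter fun p => rowP p = t).card

/-- the number of missing edges at column `t` -/
def cdeg (S : Finset (Pos m)) (t : Fin (m + 2)) : ℕ := ((Sᶜ).filter fun p => p.1 = t).card

/-- rows all of whose edges are in `S` -/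
def r0 (S : Finset (Pos m)) : ℕ := ((univ : Finset (Fin (m + 2))).filter fun t => rdeg S t = 0).card

/-- columns all of whose edges are in `S` -/
def c0 (S : Finset (Pos m)) : ℕ := ((univ : Finset (Fin (m + 2))).filter fun t => cdeg S t = 0).card

theorem sum_rdeg (S : Finset (Pos m)) : ∑ t, rdeg S t = (Sᶜ).card := by
  unfold rdeg
  rw [← Finset.card_eq_sum_card_fiberwise]
  intro p _
  exact Finset.mem_coe.2 (Finset.mem_univ _)

theorem sum_cdeg (S : Finset (Pos m)) : ∑ t, cdeg S t = (Sᶜ).card := by
  unfold cdeg
  rw [← Finset.card_eq_sum_card_fiberwise]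
  intro p _
  exact Finset.mem_coe.2 (Finset.mem_univ _)

theorem row_fiber (t : Fin (m + 2)) :
    ((univ : Finset (Pos m)).filter fun p => rowP p = t) = {(t, false), (t - 1, true)} := by
  ext ⟨s, b⟩
  rw [Finset.mem_filter, Finset.mem_insert, Finset.mem_singleton]
  cases b
  · simp [rowP]
  · simp [rowP, eq_sub_iff_add_eq]

theorem col_fiber (t : Fin (m + 2)) :
    ((univ : Finset (Pos m)).filter fun p => p.1 = t) = {(t, false), (t, true)} := by
  ext ⟨s, b⟩
  rw [Finset.mem_filter, Finset.mem_insert, Finset.mem_singleton]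
  cases b <;> simp

theorem rdeg_le (S : Finset (Pos m)) (t : Fin (m + 2)) : rdeg S t ≤ 2 := by
  unfold rdeg
  calc ((Sᶜ).filter fun p => rowP p = t).card
      ≤ ((univ : Finset (Pos m)).filter fun p => rowP p = t).card :=
        Finset.card_le_card (Finset.filter_subset_filter _ (Finset.subset_univ _))
    _ ≤ 2 := by rw [row_fiber]; exact Finset.card_le_two

theorem cdeg_le (S : Finset (Pos m)) (t : Fin (m + 2)) : cdeg S t ≤ 2 := by
  unfold cdeg
  calc ((Sᶜ).filter fun p => p.1 = t).card
      ≤ ((univ : Finset (Pos m)).filter fun p => p.1 = t).card :=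
        Finset.card_le_card (Finset.filter_subset_filter _ (Finset.subset_univ _))
    _ ≤ 2 := by rw [col_fiber]; exact Finset.card_le_two

theorem exists_of_rdeg {S : Finset (Pos m)} {t : Fin (m + 2)} (h : rdeg S t < 2) :
    ∃ p ∈ S, rowP p = t := by
  by_contra hcon
  push Not at hcon
  have h1 : ({(t, false), (t - 1, true)} : Finset (Pos m)) ⊆ (Sᶜ).filter fun p => rowP p = t := by
    rw [← row_fiber]
    intro p hp
    rw [Finset.mem_filter] at hp ⊢
    refine ⟨?_, hp.2⟩
    rw [Finset.mem_compl]
    intro hpS
    exact hcon p hpS hp.2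
  have h2 := Finset.card_le_card h1
  rw [Finset.card_pair (by simp)] at h2
  unfold rdeg at h
  omega

theorem exists_of_cdeg {S : Finset (Pos m)} {t : Fin (m + 2)} (h : cdeg S t < 2) :
    ∃ p ∈ S, p.1 = t := by
  by_contra hcon
  push Not at hcon
  have h1 : ({(t, false), (t, true)} : Finset (Pos m)) ⊆ (Sᶜ).filter fun p => p.1 = t := by
    rw [← col_fiber]
    intro p hp
    rw [Finset.mem_filter] at hp ⊢
    refine ⟨?_, hp.2⟩
    rw [Finset.mem_compl]
    intro hpS
    exact hcon p hpS hp.2
  have h2 := Finset.card_le_card h1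
  rw [Finset.card_pair (by simp)] at h2
  unfold cdeg at h
  omega

/-! ### The combinatorial inequality -/

theorem comb_ineq {S : Finset (Pos m)} (h0 : S ≠ ∅) (h1 : S ≠ univ) :
    r0 S + 1 + c0 S + (Sᶜ).card ≤ 2 * (m + 2) := by
  classical
  set F : Finset (Fin (m + 2)) := univ.filter fun t => (t, false) ∈ S with hF
  set T : Finset (Fin (m + 2)) := univ.filter fun t => (t, true) ∈ S with hT
  have hr0 : (univ : Finset (Fin (m + 2))).filter (fun t => rdeg S t = 0)
      = F ∩ T.map (addRightEmbedding 1) := by
    ext t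
    rw [Finset.mem_filter, Finset.mem_inter, Finset.mem_map]
    unfold rdeg
    rw [Finset.card_eq_zero, Finset.filter_eq_empty_iff]
    constructor
    · rintro ⟨_, h⟩
      have h2 : (t, false) ∈ S := by
        by_contra hc
        exact h (Finset.mem_compl.2 hc) (by simp [rowP])
      have h3 : (t - 1, true) ∈ S := by
        by_contra hc
        exact h (Finset.mem_compl.2 hc) (by simp [rowP])
      refine ⟨by simp [hF, h2], t - 1, by simp [hT, h3], by simp⟩
    · rintro ⟨h2, s, h3, h4⟩
      refine ⟨Finset.mem_univ _, ?_⟩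
      intro p hp hpt
      rw [Finset.mem_compl] at hp
      have hfib : p ∈ (univ : Finset (Pos m)).filter (fun p => rowP p = t) := by
        simp [hpt]
      rw [row_fiber, Finset.mem_insert, Finset.mem_singleton] at hfib
      rcases hfib with rfl | rfl
      · apply hp
        rw [hF, Finset.mem_filter] at h2
        exact h2.2
      · apply hp
        rw [hT, Finset.mem_filter] at h3
        have h5 : s = t - 1 := by
          rw [eq_sub_iff_add_eq]; exact h4
        rw [← h5]
        exact h3.2
  have hc0 : (univ : Finset (Fin (m + 2))).filter (fun t => cdeg S t = 0) = F ∩ T := by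
    ext t
    rw [Finset.mem_filter, Finset.mem_inter]
    unfold cdeg
    rw [Finset.card_eq_zero, Finset.filter_eq_empty_iff]
    constructor
    · rintro ⟨_, h⟩
      have h2 : (t, false) ∈ S := by
        by_contra hc
        exact h (Finset.mem_compl.2 hc) rfl
      have h3 : (t, true) ∈ S := by
        by_contra hc
        exact h (Finset.mem_compl.2 hc) rfl
      exact ⟨by simp [hF, h2], by simp [hT, h3]⟩
    · rintro ⟨h2, h3⟩
      refine ⟨Finset.mem_univ _, ?_⟩
      intro p hp hpt
      rw [Finset.mem_compl] at hp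
      have hfib : p ∈ (univ : Finset (Pos m)).filter (fun p => p.1 = t) := by
        simp [hpt]
      rw [col_fiber, Finset.mem_insert, Finset.mem_singleton] at hfib
      rcases hfib with rfl | rfl
      · apply hp
        rw [hF, Finset.mem_filter] at h2
        exact h2.2
      · apply hp
        rw [hT, Finset.mem_filter] at h3
        exact h3.2
  have hScard : S.card = F.card + T.card := by
    have h2 : S = F.image (fun t => ((t, false) : Pos m)) ∪ T.image (fun t => ((t, true) : Pos m)) := by
      ext ⟨t, b⟩
      rw [Finset.mem_union, Finset.mem_image, Finset.mem_image]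
      cases b
      · simp [hF]
      · simp [hT]
    have h3 : Disjoint (F.image (fun t => ((t, false) : Pos m)))
        (T.image (fun t => ((t, true) : Pos m))) := by
      rw [Finset.disjoint_left]
      intro x hx hy
      rw [Finset.mem_image] at hx hy
      obtain ⟨a, _, rfl⟩ := hx
      obtain ⟨b, _, hb⟩ := hy
      rw [Prod.mk.injEq] at hb
      exact absurd hb.2 (by decide)
    conv_lhs => rw [h2]
    rw [Finset.card_union_of_disjoint h3, Finset.card_image_of_injective,
      Finset.card_image_of_injective]
    · intro a b hab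
      exact (Prod.mk.injEq _ _ _ _ ▸ hab).1
    · intro a b hab
      exact (Prod.mk.injEq _ _ _ _ ▸ hab).1
  have hcompl : (Sᶜ).card + S.card = 2 * (m + 2) := by
    rw [add_comm, Finset.card_add_card_compl, Fintype.card_prod, Fintype.card_fin,
      Fintype.card_bool]
    ring
  have hmain : (F ∩ T.map (addRightEmbedding 1)).card + 1 ≤ (F ∪ T).card := by
    by_contra hcon
    push Not at hcon
    have e1 : F ∩ T.map (addRightEmbedding 1) ⊆ F ∪ T :=
      (Finset.inter_subset_left).trans Finset.subset_union_left
    have e2 : F ∩ T.map (addRightEmbedding 1) = F ∪ T :=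
      Finset.eq_of_subset_of_card_le e1 (by omega)
    have e3 : T ⊆ F := by
      intro t ht
      have : t ∈ F ∩ T.map (addRightEmbedding 1) := by
        rw [e2]; exact Finset.mem_union_right _ ht
      exact (Finset.mem_inter.1 this).1
    have e4 : F ⊆ T.map (addRightEmbedding 1) := by
      intro t ht
      have : t ∈ F ∩ T.map (addRightEmbedding 1) := by
        rw [e2]; exact Finset.mem_union_left _ ht
      exact (Finset.mem_inter.1 this).2
    have e5 : F = T.map (addRightEmbedding 1) := by
      apply Finset.eq_of_subset_of_card_le e4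
      rw [Finset.card_map]
      exact Finset.card_le_card e3
    have e6 : T = F := by
      apply Finset.eq_of_subset_of_card_le e3
      have := congrArg Finset.card e5
      rw [Finset.card_map] at this
      omega
    -- `T` is invariant
    have e7 : ∀ t, t ∈ T → t + 1 ∈ T := by
      intro t ht
      rw [e6, e5, Finset.mem_map]
      exact ⟨t, ht, rfl⟩
    by_cases hTe : T = ∅
    · apply h0
      rw [← Finset.card_eq_zero, hScard, ← e6, hTe]
      simp
    · obtain ⟨t, ht⟩ := Finset.nonempty_iff_ne_empty.2 hTe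
      have hs1 : ∀ s : Fin (m + 1), (s.castSucc : Fin (m + 2)) ∈ T → s.succ ∈ T := by
        intro s hs
        have := e7 _ hs
        rwa [Fin.coeSucc_eq_succ] at this
      have e8 : ∀ s : Fin (m + 2), t ≤ s → s ∈ T := by
        intro s
        induction s using Fin.induction with
        | zero =>
          intro h
          have : t = 0 := le_antisymm h (Fin.zero_le _)
          rw [← this]; exact ht
        | succ s ih =>
          intro h
          rcases eq_or_lt_of_le h with h2 | h2
          · rw [← h2]; exact ht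
          · apply hs1
            apply ih
            rw [Fin.le_def, Fin.val_castSucc]
            rw [Fin.lt_def, Fin.val_succ] at h2
            omega
      have e10 : (0 : Fin (m + 2)) ∈ T := by
        have := e7 _ (e8 (Fin.last (m + 1)) (Fin.le_last _))
        rwa [Fin.last_add_one] at this
      have e9 : T = univ := by
        rw [Finset.eq_univ_iff_forall]
        intro s
        induction s using Fin.induction with
        | zero => exact e10
        | succ s ih => exact hs1 s ih
      apply h1
      rw [← Finset.card_eq_iff_eq_univ, hScard, ← e6, e9, Finset.card_univ, Fintype.card_prod,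
        Fintype.card_fin, Fintype.card_bool]
      ring
  have hie := Finset.card_union_add_card_inter F T
  unfold r0 c0
  rw [hr0, hc0]
  omega

/-! ### Block sums -/

/-- the sum over one vertex -/
def blockSum {ι : Type} [Fintype ι] [DecidableEq ι] (x : ι → ℝ) (r : ℕ) : ℝ :=
  ∑ i, ∑ j, if (r < 2 → i = j) then |x i| ^ r * |x j| ^ r else 0

theorem blockSum_eq {ι : Type} [Fintype ι] [DecidableEq ι] (x : ι → ℝ) {r : ℕ} (hr : r ≤ 2) :
    blockSum x r = (if r = 0 then (Fintype.card ι : ℝ) else 1) * (∑ i, x i ^ 2) ^ r := by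
  unfold blockSum
  interval_cases r
  · simp
  · simp only [Nat.one_lt_ofNat, forall_const, pow_one, one_ne_zero, if_false, one_mul]
    refine Finset.sum_congr rfl fun i _ => ?_
    rw [Finset.sum_eq_single i]
    · rw [if_pos rfl, ← abs_mul, ← pow_two, abs_of_nonneg (sq_nonneg _)]
    · intro j _ hj
      rw [if_neg (fun h => hj h.symm)]
    · intro h; exact absurd (Finset.mem_univ _) h
  · simp only [lt_self_iff_false, false_implies, if_true, OfNat.ofNat_ne_zero, if_false, one_mul,
      sq_abs]
    rw [pow_two, Finset.sum_mul_sum]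

theorem sum_pairs {T ι : Type} [Fintype T] [DecidableEq T] [Fintype ι] [DecidableEq ι]
    (φ : T → ι → ι → ℝ) :
    ∑ a : T → ι, ∑ a' : T → ι, ∏ t, φ t (a t) (a' t) = ∏ t, ∑ i, ∑ i', φ t i i' := by
  have h1 : ∀ ψ : T → ι → ℝ, ∑ a : T → ι, ∏ t, ψ t (a t) = ∏ t, ∑ i, ψ t i := by
    intro ψ
    have := Finset.prod_univ_sum (fun _ : T => (Finset.univ : Finset ι)) ψ
    rw [Fintype.piFinset_univ] at this
    exact this.symm
  rw [← h1 (fun t i => ∑ i', φ t i i')]
  refine Finset.sum_congr rfl fun a _ => ?_
  exact h1 (fun t i' => φ t (a t) i')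

theorem sum_comp_le {I J : Type} [Fintype I] [Fintype J] (h : I → J) (hh : Function.Injective h)
    (g : J → ℝ) (hg : ∀ j, 0 ≤ g j) : ∑ i, g (h i) ≤ ∑ j, g j := by
  classical
  rw [← Finset.sum_image (f := g) (g := h) (s := univ) (fun a _ b _ hab => hh hab)]
  exact Finset.sum_le_sum_of_subset_of_nonneg (Finset.subset_univ _) fun j _ _ => hg j

theorem mA_eq (s : ℝ) (x : Fin n → ℝ) (u : Fin N → ℝ) (i : Idx n N m) (S : Finset (Pos m)) :
    mA ent (fun e => s * x e.1 * u e.2) i S
      = |s| ^ (Sᶜ).card * ((∏ t, |x (i.1 t)| ^ rdeg S t) * ∏ t, |u (i.2 t)| ^ cdeg S t) := by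
  unfold mA
  have h1 : ∀ p : Pos m, |s * x (ent i p).1 * u (ent i p).2|
      = |s| * (|x (i.1 (rowP p))| * |u (i.2 p.1)|) := by
    intro p
    rw [ent_apply, abs_mul, abs_mul]
    ring
  rw [Finset.prod_congr rfl fun p _ => h1 p, Finset.prod_mul_distrib, Finset.prod_mul_distrib,
    Finset.prod_const]
  congr 2
  · rw [← Finset.prod_fiberwise (Sᶜ) (fun p => rowP p)]
    refine Finset.prod_congr rfl fun t _ => ?_
    unfold rdeg
    rw [← Finset.prod_const]
    refine Finset.prod_congr rfl fun p hp => ?_
    rw [Finset.mem_filter] at hp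
    rw [hp.2]
  · rw [← Finset.prod_fiberwise (Sᶜ) (fun p => p.1)]
    refine Finset.prod_congr rfl fun t _ => ?_
    unfold cdeg
    rw [← Finset.prod_const]
    refine Finset.prod_congr rfl fun p hp => ?_
    rw [Finset.mem_filter] at hp
    rw [hp.2]

open Classical in
/-- the bound for the sums over pairs -/
theorem QS_le (s : ℝ) (x : Fin n → ℝ) (u : Fin N → ℝ) (S : Finset (Pos m)) :
    QS (I := Idx n N m) ent (fun e => s * x e.1 * u e.2) S
      ≤ (s ^ 2) ^ (Sᶜ).card * ((n : ℝ) ^ r0 S * (∑ i, x i ^ 2) ^ (Sᶜ).card)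
        * ((N : ℝ) ^ c0 S * (∑ j, u j ^ 2) ^ (Sᶜ).card) := by
  set φ : Fin (m + 2) → Fin n → Fin n → ℝ := fun t i i' =>
    if (rdeg S t < 2 → i = i') then |x i| ^ rdeg S t * |x i'| ^ rdeg S t else 0 with hφ
  set ψ : Fin (m + 2) → Fin N → Fin N → ℝ := fun t j j' =>
    if (cdeg S t < 2 → j = j') then |u j| ^ cdeg S t * |u j'| ^ cdeg S t else 0 with hψ
  have hφ0 : ∀ t i i', 0 ≤ φ t i i' := by
    intro t i i'
    simp only [hφ]
    split_ifs <;> positivity
  have hψ0 : ∀ t i i', 0 ≤ ψ t i i' := by
    intro t i i'
    simp only [hψ]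
    split_ifs <;> positivity
  -- the pointwise bound
  have hpt : ∀ i j : Idx n N m, (if (∀ p ∈ S, ent i p = ent j p) then
      mA ent (fun e => s * x e.1 * u e.2) i S * mA ent (fun e => s * x e.1 * u e.2) j S else 0)
      ≤ (s ^ 2) ^ (Sᶜ).card * ((∏ t, φ t (i.1 t) (j.1 t)) * ∏ t, ψ t (i.2 t) (j.2 t)) := by
    intro i j
    split_ifs with h
    · have h1 : ∀ t, φ t (i.1 t) (j.1 t) = |x (i.1 t)| ^ rdeg S t * |x (j.1 t)| ^ rdeg S t := by
        intro t
        simp only [hφ]
        rw [if_pos]
        intro hlt
        obtain ⟨p, hp, hpt⟩ := exists_of_rdeg hlt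
        have := h p hp
        rw [ent_apply, ent_apply, Prod.mk.injEq, hpt] at this
        exact this.1
      have h2 : ∀ t, ψ t (i.2 t) (j.2 t) = |u (i.2 t)| ^ cdeg S t * |u (j.2 t)| ^ cdeg S t := by
        intro t
        simp only [hψ]
        rw [if_pos]
        intro hlt
        obtain ⟨p, hp, hpt⟩ := exists_of_cdeg hlt
        have := h p hp
        rw [ent_apply, ent_apply, Prod.mk.injEq, hpt] at this
        exact this.2
      rw [mA_eq, mA_eq, Finset.prod_congr rfl fun t _ => h1 t,
        Finset.prod_congr rfl fun t _ => h2 t, Finset.prod_mul_distrib, Finset.prod_mul_distrib,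
        ← sq_abs s, ← pow_mul]
      apply le_of_eq
      ring
    · apply mul_nonneg (by positivity)
      exact mul_nonneg (Finset.prod_nonneg fun t _ => hφ0 _ _ _)
        (Finset.prod_nonneg fun t _ => hψ0 _ _ _)
  unfold QS
  refine (Finset.sum_le_sum fun i _ => Finset.sum_le_sum fun j _ => hpt i j).trans ?_
  simp only [← Finset.mul_sum]
  rw [mul_assoc]
  apply mul_le_mul_of_nonneg_left _ (by positivity)
  -- all functions instead of embeddings
  let H : Idx n N m → (Fin (m + 2) → Fin n) × (Fin (m + 2) → Fin N) :=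
    fun i => (fun t => i.1 t, fun t => i.2 t)
  have hH : Function.Injective H := by
    rintro ⟨a, b⟩ ⟨a', b'⟩ h
    rw [Prod.mk.injEq] at h ⊢
    exact ⟨DFunLike.coe_injective h.1, DFunLike.coe_injective h.2⟩
  let g : ((Fin (m + 2) → Fin n) × (Fin (m + 2) → Fin N)) →
      ((Fin (m + 2) → Fin n) × (Fin (m + 2) → Fin N)) → ℝ := fun a b =>
    (∏ t, φ t (a.1 t) (b.1 t)) * ∏ t, ψ t (a.2 t) (b.2 t)
  have hg : ∀ a b, 0 ≤ g a b := fun a b =>
    mul_nonneg (Finset.prod_nonneg fun t _ => hφ0 _ _ _)
        (Finset.prod_nonneg fun t _ => hψ0 _ _ _)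
  calc ∑ i : Idx n N m, ∑ j : Idx n N m,
        ((∏ t, φ t (i.1 t) (j.1 t)) * ∏ t, ψ t (i.2 t) (j.2 t))
      = ∑ i : Idx n N m, ∑ j : Idx n N m, g (H i) (H j) := rfl
    _ ≤ ∑ i : Idx n N m, ∑ b, g (H i) b :=
        Finset.sum_le_sum fun i _ => sum_comp_le H hH (g (H i)) (hg _)
    _ ≤ ∑ a, ∑ b, g a b :=
        sum_comp_le H hH (fun a => ∑ b, g a b) (fun a => Finset.sum_nonneg fun b _ => hg a b)
    _ = (∑ a : Fin (m + 2) → Fin n, ∑ a' : Fin (m + 2) → Fin n, ∏ t, φ t (a t) (a' t))
        * ∑ b : Fin (m + 2) → Fin N, ∑ b' : Fin (m + 2) → Fin N, ∏ t, ψ t (b t) (b' t) := by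
        rw [Fintype.sum_prod_type, Finset.sum_mul_sum]
        refine Finset.sum_congr rfl fun a _ => Finset.sum_congr rfl fun b _ => ?_
        rw [Fintype.sum_prod_type, Finset.sum_mul_sum]
    _ = _ := by
        rw [sum_pairs, sum_pairs]
        congr 1
        · have h3 : ∀ t, ∑ i, ∑ i', φ t i i' = blockSum x (rdeg S t) := by
            intro t
            unfold blockSum
            simp only [hφ]
          rw [Finset.prod_congr rfl fun t _ => h3 t,
            Finset.prod_congr rfl fun t _ => blockSum_eq x (rdeg_le S t), Finset.prod_mul_distrib,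
            Finset.prod_pow_eq_pow_sum, sum_rdeg, Fintype.card_fin]
          congr 1
          rw [← Finset.prod_filter_mul_prod_filter_not univ (fun t => rdeg S t = 0)]
          rw [Finset.prod_congr rfl (fun t ht => if_pos (Finset.mem_filter.1 ht).2),
            Finset.prod_congr (s₁ := univ.filter fun t => ¬ rdeg S t = 0) rfl
              (fun t ht => if_neg (Finset.mem_filter.1 ht).2), Finset.prod_const, Finset.prod_const,
            one_pow, mul_one]
          rfl
        · have h3 : ∀ t, ∑ i, ∑ i', ψ t i i' = blockSum u (cdeg S t) := by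
            intro t
            unfold blockSum
            simp only [hψ]
          rw [Finset.prod_congr rfl fun t _ => h3 t,
            Finset.prod_congr rfl fun t _ => blockSum_eq u (cdeg_le S t), Finset.prod_mul_distrib,
            Finset.prod_pow_eq_pow_sum, sum_cdeg, Fintype.card_fin]
          congr 1
          rw [← Finset.prod_filter_mul_prod_filter_not univ (fun t => cdeg S t = 0)]
          rw [Finset.prod_congr rfl (fun t ht => if_pos (Finset.mem_filter.1 ht).2),
            Finset.prod_congr (s₁ := univ.filter fun t => ¬ cdeg S t = 0) rfl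
              (fun t ht => if_neg (Finset.mem_filter.1 ht).2), Finset.prod_const, Finset.prod_const,
            one_pow, mul_one]
          rfl

end Pool.Agent.R563.SPca
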