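import Pool.Agent.R563.SPca.Mom
import Pool.Agent.R563.SPca.QBound

set_option autoImplicit false

/-! # The moments of the cycle counts -/

noncomputable section

namespace Pool.Agent.R563.SPca

open MeasureTheory ProbabilityTheory Finset

/-- the cycle polynomial -/
def cycPoly (n N m : ℕ) : MvPolynomial (Fin n × Fin N) ℝ :=
  ∑ i : Idx n N m, ∏ p, MvPolynomial.X (ent i p)

theorem eval_cyc {n N m : ℕ} (Y : Fin n × Fin N → ℝ) :
    MvPolynomial.eval Y (cycPoly n N m) = ∑ i : Idx n N m, ∏ p, Y (ent i p) := by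
  unfold cycPoly
  rw [map_sum]
  refine Finset.sum_congr rfl fun i _ => ?_
  rw [map_prod]
  refine Finset.prod_congr rfl fun p _ => ?_
  rw [MvPolynomial.eval_X]

theorem card_pos (m : ℕ) : Fintype.card (Pos m) = 2 * (m + 2) := by
  rw [Fintype.card_prod, Fintype.card_fin, Fintype.card_bool]; ring

theorem totalDegree_cyc (n N m : ℕ) : (cycPoly n N m).totalDegree ≤ 2 * (m + 2) := by
  unfold cycPoly
  apply MvPolynomial.totalDegree_finsetSum_le
  intro i _
  refine (MvPolynomial.totalDegree_finsetProd _ _).trans ?_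
  rw [← card_pos m, ← Finset.card_univ, Finset.card_eq_sum_ones]
  exact Finset.sum_le_sum fun p _ => (MvPolynomial.totalDegree_X _).le

/-! ### The planted law -/

theorem measurable_eval {n N : ℕ} (p : MvPolynomial (Fin n × Fin N) ℝ) :
    Measurable (fun Y : Fin n × Fin N → ℝ => MvPolynomial.eval Y p) :=
  (MvPolynomial.continuous_eval p).measurable

theorem planted_nice {n N : ℕ} {k β : ℝ} (hβ : 0 ≤ β) (p : MvPolynomial (Fin n × Fin N) ℝ) :
    Nice (plantedLaw n N k β) (fun Y => MvPolynomial.eval Y p) := by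
  refine ⟨(measurable_eval p).aestronglyMeasurable, fun m => ?_⟩
  unfold plantedLaw
  rw [integrable_finsetSum_measure]
  intro s _
  exact ((cond_nice hβ _ p).2 m).smul_measure ENNReal.ofReal_ne_top

theorem planted_integral {n N : ℕ} {k β : ℝ} (hβ : 0 ≤ β) (hk : 0 ≤ k) (hkn : k ≤ n)
    (p : MvPolynomial (Fin n × Fin N) ℝ) :
    ∫ Y, MvPolynomial.eval Y p ∂(plantedLaw n N k β)
      = EX n k (fun s => ∫ Y, MvPolynomial.eval Y p
          ∂(condLaw n N β (fun i => (s i : ℝ) / √k))) := by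
  unfold plantedLaw EX
  rw [integral_finsetSum_measure]
  · refine Finset.sum_congr rfl fun s _ => ?_
    rw [integral_smul_measure, ENNReal.toReal_ofReal (wt_nonneg hk hkn s), smul_eq_mul]
  · intro s _
    exact ((cond_nice hβ _ p).integrable).smul_measure ENNReal.ofReal_ne_top

theorem planted_prob {n N : ℕ} {k β : ℝ} (hn : n ≠ 0) (hk : 0 ≤ k) (hkn : k ≤ n) :
    IsProbabilityMeasure (plantedLaw n N k β) := by
  constructor
  unfold plantedLaw
  rw [Measure.coe_finsetSum, Finset.sum_apply]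
  simp only [Measure.smul_apply, measure_univ, smul_eq_mul, mul_one]
  rw [← ENNReal.ofReal_sum_of_nonneg fun s _ => wt_nonneg hk hkn s, wt_sum hn, ENNReal.ofReal_one]

/-! ### The mean -/

theorem prod_mu {n N m : ℕ} {β : ℝ} (hβ : 0 ≤ β) (x : Fin n → ℝ) (u : Fin N → ℝ)
    (i : Idx n N m) : ∏ p, (√β * x (ent i p).1 * u (ent i p).2)
      = β ^ (m + 2) * (∏ t, x (i.1 t) ^ 2) * ∏ t, u (i.2 t) ^ 2 := by
  rw [Fintype.prod_prod_type]
  have h1 : ∀ t : Fin (m + 2), ∏ b : Bool, (√β * x (ent i (t, b)).1 * u (ent i (t, b)).2)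
      = β * (x (i.1 (t + 1)) * x (i.1 t)) * u (i.2 t) ^ 2 := by
    intro t
    rw [Fintype.prod_bool]
    simp only [ent_apply, rowP, if_true, Bool.false_eq_true, if_false]
    have : β = √β * √β := (Real.mul_self_sqrt hβ).symm
    conv_rhs => rw [this]
    ring
  rw [Finset.prod_congr rfl fun t _ => h1 t, Finset.prod_mul_distrib, Finset.prod_mul_distrib,
    Finset.prod_mul_distrib, Finset.prod_const, Finset.card_univ, Fintype.card_fin]
  have h2 : ∏ t : Fin (m + 2), x (i.1 (t + 1)) = ∏ t, x (i.1 t) :=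
    Equiv.prod_comp (Equiv.addRight (1 : Fin (m + 2))) (fun t => x (i.1 t))
  rw [h2, ← Finset.prod_mul_distrib]
  congr 2
  exact Finset.prod_congr rfl fun t _ => by ring

theorem card_idx (n N m : ℕ) :
    Fintype.card (Idx n N m) = n.descFactorial (m + 2) * N.descFactorial (m + 2) := by
  rw [Fintype.card_prod, Fintype.card_embedding_eq, Fintype.card_embedding_eq, Fintype.card_fin,
    Fintype.card_fin, Fintype.card_fin]

theorem planted_mean {n N m : ℕ} {k β : ℝ} (hn : n ≠ 0) (hβ : 0 ≤ β) (hk : 0 < k) (hkn : k ≤ n) :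
    ∫ Y, MvPolynomial.eval Y (cycPoly n N m) ∂(plantedLaw n N k β)
      = (n.descFactorial (m + 2) * N.descFactorial (m + 2) : ℕ) * (β / n) ^ (m + 2) := by
  rw [planted_integral hβ hk.le hkn]
  have h1 : ∀ s : Fin n → SignType, ∫ Y, MvPolynomial.eval Y (cycPoly n N m)
      ∂(condLaw n N β (fun i => (s i : ℝ) / √k))
      = β ^ (m + 2) * ∑ i : Idx n N m, ∏ t, xsq k s (i.1 t) := by
    intro s
    rw [cond_integral hβ]
    simp only [eval_cyc]
    have h2 : ∀ u : Fin N → ℝ, ∫ ω, (∑ i : Idx n N m, ∏ p, (gE ω (ent i p)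
        + √β * ((s (ent i p).1 : ℝ) / √k) * u (ent i p).2)) ∂(muG n N)
        = ∑ i : Idx n N m, ∏ p, (√β * ((s (ent i p).1 : ℝ) / √k) * u (ent i p).2) := fun u =>
      inner_mean (muG n N) gE muG_hint muG_hval ent
        (fun e => √β * ((s e.1 : ℝ) / √k) * u e.2)
    simp only [h2]
    have h3 : ∀ (u : Fin N → ℝ) (i : Idx n N m),
        ∏ p, (√β * ((s (ent i p).1 : ℝ) / √k) * u (ent i p).2)
        = β ^ (m + 2) * (∏ t, xsq k s (i.1 t)) * ∏ t, u (i.2 t) ^ 2 := fun u i =>
      prod_mu hβ (fun i => (s i : ℝ) / √k) u i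
    simp only [h3]
    rw [integral_finsetSum _ fun i _ => ((Nice.prod univ fun t _ =>
      (muU_nice (i.2 t)).pow 2).integrable).const_mul _, Finset.mul_sum]
    refine Finset.sum_congr rfl fun i _ => ?_
    rw [integral_const_mul, U_inj, mul_one]
  simp only [h1]
  rw [EX_mul, EX_sum, Finset.sum_congr rfl fun i _ => EX_inj hn hk i.1, Finset.sum_const,
    Finset.card_univ, card_idx, nsmul_eq_mul]
  simp only [div_pow, one_pow]
  ring

/-! ### The second moment -/

open Classical in
/-- the middle sets -/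
def mid (m : ℕ) : Finset (Finset (Pos m)) := univ.filter fun S => S ≠ ∅ ∧ S ≠ univ

theorem r0_empty (m : ℕ) : r0 (∅ : Finset (Pos m)) = 0 := by
  unfold r0
  rw [Finset.card_eq_zero, Finset.filter_eq_empty_iff]
  intro t _ h
  have h2 : rdeg (∅ : Finset (Pos m)) t < 2 := by omega
  obtain ⟨p, hp, _⟩ := exists_of_rdeg h2
  exact absurd hp (Finset.notMem_empty p)

theorem c0_empty (m : ℕ) : c0 (∅ : Finset (Pos m)) = 0 := by
  unfold c0
  rw [Finset.card_eq_zero, Finset.filter_eq_empty_iff]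
  intro t _ h
  have h2 : cdeg (∅ : Finset (Pos m)) t < 2 := by omega
  obtain ⟨p, hp, _⟩ := exists_of_cdeg h2
  exact absurd hp (Finset.notMem_empty p)

theorem card_compl_empty (m : ℕ) : ((∅ : Finset (Pos m))ᶜ).card = 2 * (m + 2) := by
  rw [Finset.compl_empty, Finset.card_univ, card_pos]

/-- the pointwise bound -/
def Phi (n N m : ℕ) (β X U : ℝ) : ℝ :=
  β ^ (2 * (m + 2)) * X ^ (2 * (m + 2)) * U ^ (2 * (m + 2))
    + 2 * (m + 2) * (n.descFactorial (m + 2) * N.descFactorial (m + 2) : ℕ)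
    + (2 * (m + 2)).factorial * ∑ S ∈ mid m, β ^ (Sᶜ).card * ((n : ℝ) ^ r0 S * X ^ (Sᶜ).card)
      * ((N : ℝ) ^ c0 S * U ^ (Sᶜ).card)

open Classical in
theorem inner_le {n N m : ℕ} {β : ℝ} (hβ : 0 ≤ β) (x : Fin n → ℝ) (u : Fin N → ℝ) :
    ∫ ω, (∑ i : Idx n N m, ∏ p, (gE ω (ent i p) + √β * x (ent i p).1 * u (ent i p).2)) ^ 2
      ∂(muG n N) ≤ Phi n N m β (∑ i, x i ^ 2) (∑ j, u j ^ 2) := by
  have h := inner_bound (I := Idx n N m) (muG n N) gE muG_hint muG_hval ent
    (fun e => √β * x e.1 * u e.2)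
  refine h.trans ?_
  unfold Phi
  refine add_le_add (add_le_add ?_ ?_) ?_
  · have h1 : (∑ i : Idx n N m, ∏ p, (√β * x (ent i p).1 * u (ent i p).2)) ^ 2
        ≤ QS (I := Idx n N m) ent (fun e => √β * x e.1 * u e.2) ∅ := by
      unfold QS
      simp only [Finset.notMem_empty, false_implies, implies_true, if_true]
      rw [← Finset.sum_mul_sum, ← pow_two]
      apply sq_le_sq'
      · have h2 : ∀ i : Idx n N m, -(mA ent (fun e => √β * x e.1 * u e.2) i ∅)
            ≤ ∏ p, (√β * x (ent i p).1 * u (ent i p).2) := by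
          intro i
          unfold mA
          rw [Finset.compl_empty, ← Finset.abs_prod]
          exact neg_abs_le _
        rw [← Finset.sum_neg_distrib]
        exact Finset.sum_le_sum fun i _ => h2 i
      · refine Finset.sum_le_sum fun i _ => ?_
        unfold mA
        rw [Finset.compl_empty, ← Finset.abs_prod]
        exact le_abs_self _
    refine h1.trans ((QS_le (√β) x u ∅).trans (le_of_eq ?_))
    rw [card_compl_empty, r0_empty, c0_empty, Real.sq_sqrt hβ]
    simp
  · calc ∑ i : Idx n N m, ∑ j : Idx n N m, (if (univ : Finset (Pos m)).map (ent i)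
          = (univ : Finset (Pos m)).map (ent j) then (1 : ℝ) else 0)
        ≤ ∑ _i : Idx n N m, (2 * (m + 2) : ℝ) := Finset.sum_le_sum fun i _ => count_le i
      _ = _ := by
          rw [Finset.sum_const, Finset.card_univ, card_idx, nsmul_eq_mul]
          ring
  · rw [card_pos]
    apply mul_le_mul_of_nonneg_left _ (by positivity)
    unfold mid
    refine Finset.sum_le_sum fun S _ => ?_
    have := QS_le (m := m) (√β) x u S
    rwa [Real.sq_sqrt hβ] at this

/-- the bound for the second moment -/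
def Bd (n N m : ℕ) (k β : ℝ) : ℝ :=
  β ^ (2 * (m + 2)) * mX n k (2 * (m + 2)) * mU N (2 * (m + 2))
    + 2 * (m + 2) * (n.descFactorial (m + 2) * N.descFactorial (m + 2) : ℕ)
    + (2 * (m + 2)).factorial * ∑ S ∈ mid m, β ^ (Sᶜ).card
      * ((n : ℝ) ^ r0 S * mX n k (Sᶜ).card) * ((N : ℝ) ^ c0 S * mU N (Sᶜ).card)

theorem planted_second {n N m : ℕ} {k β : ℝ} (hn : n ≠ 0) (hβ : 0 ≤ β) (hk : 0 < k)
    (hkn : k ≤ n) :
    ∫ Y, (MvPolynomial.eval Y (cycPoly n N m)) ^ 2 ∂(plantedLaw n N k β) ≤ Bd n N m k β := by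
  have h0 : ∀ Y : Fin n × Fin N → ℝ, (MvPolynomial.eval Y (cycPoly n N m)) ^ 2
      = MvPolynomial.eval Y ((cycPoly n N m) ^ 2) := fun Y => by rw [map_pow]
  simp only [h0]
  rw [planted_integral hβ hk.le hkn]
  -- conditional bound
  have h1 : ∀ s : Fin n → SignType, ∫ Y, MvPolynomial.eval Y ((cycPoly n N m) ^ 2)
      ∂(condLaw n N β (fun i => (s i : ℝ) / √k))
      ≤ β ^ (2 * (m + 2)) * mU N (2 * (m + 2)) * (∑ i, xsq k s i) ^ (2 * (m + 2))
        + 2 * (m + 2) * (n.descFactorial (m + 2) * N.descFactorial (m + 2) : ℕ)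
        + ∑ S ∈ mid m, ((2 * (m + 2)).factorial * β ^ (Sᶜ).card * (n : ℝ) ^ r0 S
          * ((N : ℝ) ^ c0 S * mU N (Sᶜ).card)) * (∑ i, xsq k s i) ^ (Sᶜ).card := by
    intro s
    rw [cond_integral hβ]
    simp only [map_pow, eval_cyc]
    have hU : ∀ q : ℕ, Integrable (fun u : Fin N → ℝ => (∑ j, u j ^ 2) ^ q) (muU N) :=
      fun q => ((U_nice N).pow q).integrable
    have hi1 : Integrable (fun u : Fin N → ℝ => β ^ (2 * (m + 2))
        * (∑ i, xsq k s i) ^ (2 * (m + 2)) * (∑ j, u j ^ 2) ^ (2 * (m + 2))) (muU N) :=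
      (hU _).const_mul _
    have hi2 : ∀ S ∈ mid m, Integrable (fun u : Fin N → ℝ => (2 * (m + 2)).factorial *
        (β ^ (Sᶜ).card * ((n : ℝ) ^ r0 S * (∑ i, xsq k s i) ^ (Sᶜ).card)
        * ((N : ℝ) ^ c0 S * (∑ j, u j ^ 2) ^ (Sᶜ).card))) (muU N) := fun S _ =>
      (((hU _).const_mul _).const_mul _).const_mul _
    have hi3 : Integrable (fun u : Fin N → ℝ => β ^ (2 * (m + 2))
        * (∑ i, xsq k s i) ^ (2 * (m + 2)) * (∑ j, u j ^ 2) ^ (2 * (m + 2))
        + 2 * (m + 2) * (n.descFactorial (m + 2) * N.descFactorial (m + 2) : ℕ)) (muU N) :=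
      hi1.add (integrable_const _)
    have hle : ∫ u, ∫ ω, (∑ i : Idx n N m, ∏ p, (gE ω (ent i p)
        + √β * ((s (ent i p).1 : ℝ) / √k) * u (ent i p).2)) ^ 2 ∂(muG n N) ∂(muU N)
        ≤ ∫ u, Phi n N m β (∑ i, xsq k s i) (∑ j, u j ^ 2) ∂(muU N) := by
      apply integral_mono_of_nonneg
      · exact Filter.Eventually.of_forall fun u => integral_nonneg fun ω => sq_nonneg _
      · unfold Phi
        simp only [Finset.mul_sum]
        exact hi3.add (integrable_finsetSum _ hi2)
      · exact Filter.Eventually.of_forall fun u =>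
          inner_le hβ (fun i => (s i : ℝ) / √k) u
    refine hle.trans (le_of_eq ?_)
    unfold Phi
    simp only [Finset.mul_sum]
    rw [integral_add hi3 (integrable_finsetSum _ hi2),
      integral_add hi1 (integrable_const _), integral_const_mul, integral_finsetSum _ hi2]
    simp only [integral_const_mul]
    congr 1
    · simp only [integral_const, probReal_univ, one_smul]
      unfold mU
      ring
    · refine Finset.sum_congr rfl fun S _ => ?_
      unfold mU
      ring
  refine (EX_mono hk.le hkn h1).trans (le_of_eq ?_)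
  rw [EX_add, EX_add, EX_mul, EX_const hn, EX_sum]
  simp only [EX_mul]
  unfold Bd
  rw [Finset.mul_sum]
  congr 1
  · congr 1
    unfold mX
    ring
  · refine Finset.sum_congr rfl fun S _ => ?_
    unfold mX
    ring

theorem planted_var {n N m : ℕ} {k β : ℝ} (hn : n ≠ 0) (hβ : 0 ≤ β) (hk : 0 < k)
    (hkn : k ≤ n) :
    Var[fun Y => MvPolynomial.eval Y (cycPoly n N m); plantedLaw n N k β]
      ≤ Bd n N m k β - ((n.descFactorial (m + 2) * N.descFactorial (m + 2) : ℕ)
        * (β / n) ^ (m + 2)) ^ 2 := by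
  have := planted_prob (N := N) (β := β) hn hk.le hkn
  rw [variance_eq_sub (planted_nice hβ _).sq, planted_mean hn hβ hk hkn]
  have h := planted_second (N := N) (m := m) hn hβ hk hkn
  simp only [Pi.pow_apply]
  linarith

/-! ### The null law -/

theorem null_mean (n N m : ℕ) :
    ∫ Y, MvPolynomial.eval Y (cycPoly n N m) ∂(nullLaw n N) = 0 := by
  have h := inner_mean (I := Idx n N m) (nullLaw n N) (fun ω e => ω e)
    (fun A B => null_hint A B) (fun A B => null_hval A B) ent (fun _ => 0)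
  simp only [add_zero, Finset.prod_const] at h
  simp only [eval_cyc]
  rw [h, Finset.card_univ, card_pos, zero_pow (by omega)]
  simp

open Classical in
theorem null_var (n N m : ℕ) :
    Var[fun Y => MvPolynomial.eval Y (cycPoly n N m); nullLaw n N]
      ≤ 2 * (m + 2) * (n.descFactorial (m + 2) * N.descFactorial (m + 2) : ℕ) := by
  have : IsProbabilityMeasure (nullLaw n N) := by unfold nullLaw; infer_instance
  have hnice : Nice (nullLaw n N) (fun Y => MvPolynomial.eval Y (cycPoly n N m)) :=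
    Nice.eval (ν := nullLaw n N) (σ := Fin n × Fin N) (Y := fun e Y => Y e)
      (fun e => null_nice e) (cycPoly n N m)
  rw [variance_eq_sub hnice.sq, null_mean]
  have h := inner_bound (I := Idx n N m) (nullLaw n N) (fun ω e => ω e)
    (fun A B => null_hint A B) (fun A B => null_hval A B) ent (fun _ => 0)
  simp only [add_zero, Finset.prod_const] at h
  have h1 : ∑ i : Idx n N m, ∑ j : Idx n N m, (if (univ : Finset (Pos m)).map (ent i)
          = (univ : Finset (Pos m)).map (ent j) then (1 : ℝ) else 0)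
        ≤ 2 * (m + 2) * (n.descFactorial (m + 2) * N.descFactorial (m + 2) : ℕ) := by
    calc _ ≤ ∑ _i : Idx n N m, (2 * (m + 2) : ℝ) := Finset.sum_le_sum fun i _ => count_le i
      _ = _ := by
          rw [Finset.sum_const, Finset.card_univ, card_idx, nsmul_eq_mul]
          ring
  have h2 : ∀ S ∈ (univ : Finset (Finset (Pos m))).filter (fun S => S ≠ ∅ ∧ S ≠ univ),
      QS (I := Idx n N m) ent (fun _ => 0) S = 0 := by
    intro S hS
    rw [Finset.mem_filter] at hS
    unfold QS
    refine Finset.sum_eq_zero fun i _ => Finset.sum_eq_zero fun j _ => ?_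
    have h3 : mA ent (fun _ => (0 : ℝ)) i S = 0 := by
      unfold mA
      simp only [abs_zero, Finset.prod_const]
      apply zero_pow
      rw [Finset.card_ne_zero, Finset.nonempty_iff_ne_empty]
      intro h4
      exact hS.2.2 (by simpa using h4)
    rw [h3]
    simp
  have h4 : ∑ S ∈ (univ : Finset (Finset (Pos m))).filter (fun S => S ≠ ∅ ∧ S ≠ univ),
      QS (I := Idx n N m) ent (fun _ => 0) S = 0 := Finset.sum_eq_zero h2
  rw [h4, Finset.card_univ, card_pos, zero_pow (by omega)] at h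
  simp only [eval_cyc, Pi.pow_apply]
  simp only [Finset.sum_const_zero, mul_zero, add_zero] at h
  have h5 : (0 : ℝ) ^ 2 = 0 := by norm_num
  rw [h5] at h ⊢
  linarith

end Pool.Agent.R563.SPca
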