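import Mathlib

set_option autoImplicit false

/-! # Second moments of sums of products of distinct noisy entries -/

noncomputable section

namespace Pool.Agent.R563.SPca

open Finset MeasureTheory

/-- a Cauchy-Schwarz bound for sums over matching pairs -/
theorem pair_le {I J Φ : Type} [Fintype I] [Fintype J] [Fintype Φ] [DecidableEq Φ]
    (p : I → Φ) (q : J → Φ) (α : I → ℝ) (β : J → ℝ) :
    ∑ i, ∑ j, (if p i = q j then α i * β j else 0)
      ≤ 1 / 2 * ∑ i, ∑ i', (if p i = p i' then α i * α i' else 0)
        + 1 / 2 * ∑ j, ∑ j', (if q j = q j' then β j * β j' else 0) := by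
  have key : ∀ (K L : Type) [Fintype K] [Fintype L] (r : K → Φ) (t : L → Φ) (a : K → ℝ)
      (b : L → ℝ), ∑ i, ∑ j, (if r i = t j then a i * b j else 0)
        = ∑ φ, (∑ i, if r i = φ then a i else 0) * ∑ j, if t j = φ then b j else 0 := by
    intro K L _ _ r t a b
    simp only [Finset.sum_mul_sum]
    rw [Finset.sum_comm]
    conv_rhs => rw [Finset.sum_comm]
    rw [Finset.sum_comm]
    refine Finset.sum_congr rfl fun i _ => ?_
    conv_rhs => rw [Finset.sum_comm]
    refine Finset.sum_congr rfl fun j _ => ?_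
    rw [Finset.sum_eq_single (r i)]
    · simp only [if_true]
      by_cases h : r i = t j
      · rw [if_pos h, if_pos h.symm]
      · rw [if_neg h, if_neg (fun h' => h h'.symm), mul_zero]
    · intro φ _ hφ
      rw [if_neg (fun h => hφ h.symm), zero_mul]
    · intro h
      exact absurd (Finset.mem_univ _) h
  rw [key I J p q α β, key I I p p α α, key J J q q β β, Finset.mul_sum, Finset.mul_sum,
    ← Finset.sum_add_distrib]
  refine Finset.sum_le_sum fun φ _ => ?_
  set c := ∑ i, if p i = φ then α i else 0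
  set d := ∑ j, if q j = φ then β j else 0
  nlinarith [sq_nonneg (c - d)]

variable {E P I : Type} [Fintype E] [DecidableEq E] [Fintype P] [DecidableEq P] [Fintype I]

/-- weights outside `S` -/
def mA (e : I → P ↪ E) (μ : E → ℝ) (i : I) (S : Finset P) : ℝ := ∏ p ∈ Sᶜ, |μ (e i p)|

theorem mA_nonneg (e : I → P ↪ E) (μ : E → ℝ) (i : I) (S : Finset P) : 0 ≤ mA e μ i S :=
  Finset.prod_nonneg fun _ _ => abs_nonneg _

open Classical in
/-- the sum over pairs agreeing on `S` -/
def QS (e : I → P ↪ E) (μ : E → ℝ) (S : Finset P) : ℝ :=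
  ∑ i, ∑ j, if (∀ p ∈ S, e i p = e j p) then mA e μ i S * mA e μ j S else 0

theorem exists_perm (f g : P ↪ E) {S S' : Finset P} (h : S.map f = S'.map g) :
    ∃ σ : Equiv.Perm P, S.map σ.toEmbedding = S' ∧ ∀ p ∈ S, f p = g (σ p) := by
  classical
  have h1 : ∀ p : {p // p ∈ S}, ∃ q : {q // q ∈ S'}, g q.1 = f p.1 := by
    intro p
    have : f p.1 ∈ S'.map g := by
      rw [← h, Finset.mem_map]; exact ⟨p.1, p.2, rfl⟩
    rw [Finset.mem_map] at this
    obtain ⟨q, hq, hqe⟩ := this
    exact ⟨⟨q, hq⟩, hqe⟩
  choose τ hτ using h1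
  have hinj : Function.Injective τ := by
    intro p p' hpp
    have h2 := hτ p
    rw [hpp, hτ p'] at h2
    exact Subtype.ext (f.injective h2.symm)
  have hcard : Fintype.card {p // p ∈ S} = Fintype.card {q // q ∈ S'} := by
    rw [Fintype.card_coe, Fintype.card_coe]
    have := congrArg Finset.card h
    rwa [Finset.card_map, Finset.card_map] at this
  have hbij : Function.Bijective τ := (Fintype.bijective_iff_injective_and_card τ).2 ⟨hinj, hcard⟩
  let τe : {p // p ∈ S} ≃ {q // q ∈ S'} := Equiv.ofBijective τ hbij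
  refine ⟨τe.extendSubtype, ?_, ?_⟩
  · apply Finset.eq_of_subset_of_card_le
    · intro q hq
      rw [Finset.mem_map] at hq
      obtain ⟨p, hp, rfl⟩ := hq
      have := Equiv.extendSubtype_mem τe p hp
      exact this
    · rw [Finset.card_map, ← Fintype.card_coe S, ← Fintype.card_coe S', hcard]
  · intro p hp
    rw [Equiv.extendSubtype_apply_of_mem τe p hp]
    exact (hτ ⟨p, hp⟩).symm

open Classical in
theorem match_le (e : I → P ↪ E) (μ : E → ℝ) (i j : I) (S : Finset P) :
    ∑ S' : Finset P, (if S.map (e i) = S'.map (e j) then mA e μ j S' else 0)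
      ≤ ∑ σ : Equiv.Perm P, if (∀ p ∈ S, e i p = e j (σ p)) then mA e μ j (S.map σ.toEmbedding)
        else 0 := by
  by_cases h : ∃ S' : Finset P, S.map (e i) = S'.map (e j)
  · obtain ⟨S', hS'⟩ := h
    rw [Finset.sum_eq_single S']
    · rw [if_pos hS']
      obtain ⟨σ, hσ, hσe⟩ := exists_perm (e i) (e j) hS'
      have h1 : mA e μ j S' = if (∀ p ∈ S, e i p = e j (σ p)) then
          mA e μ j (S.map σ.toEmbedding) else 0 := by
        rw [if_pos hσe, hσ]
      rw [h1]
      exact Finset.single_le_sum (f := fun σ : Equiv.Perm P =>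
        if (∀ p ∈ S, e i p = e j (σ p)) then mA e μ j (S.map σ.toEmbedding) else 0)
        (fun τ _ => by
          split_ifs
          · exact mA_nonneg _ _ _ _
          · exact le_rfl) (Finset.mem_univ σ)
    · intro S'' _ hne
      rw [if_neg]
      intro h2
      rw [hS'] at h2
      exact hne (Finset.map_injective (e j) h2).symm
    · intro h2
      exact absurd (Finset.mem_univ _) h2
  · rw [Finset.sum_eq_zero]
    · refine Finset.sum_nonneg fun σ _ => ?_
      split_ifs
      · exact mA_nonneg _ _ _ _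
      · exact le_rfl
    · intro S' _
      rw [if_neg fun h2 => h ⟨S', h2⟩]

open Classical in
theorem pair_S (e : I → P ↪ E) (μ : E → ℝ) (S : Finset P) (σ : Equiv.Perm P) :
    ∑ i, ∑ j, (if (∀ p ∈ S, e i p = e j (σ p)) then mA e μ i S * mA e μ j (S.map σ.toEmbedding)
        else 0)
      ≤ 1 / 2 * QS e μ S + 1 / 2 * QS e μ (S.map σ.toEmbedding) := by
  have h := pair_le (Φ := {p // p ∈ S} → E) (fun i p => e i p.1) (fun j p => e j (σ p.1))
    (fun i => mA e μ i S) (fun j => mA e μ j (S.map σ.toEmbedding))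
  have h1 : ∀ f g : P → E, ((fun p : {p // p ∈ S} => f p.1) = fun p => g p.1)
      ↔ ∀ p ∈ S, f p = g p := by
    intro f g
    constructor
    · intro h2 p hp
      exact congrFun h2 ⟨p, hp⟩
    · intro h2
      funext p
      exact h2 p.1 p.2
  have h2 : ∀ i j, ((fun p : {p // p ∈ S} => e i p.1) = fun p => e j (σ p.1))
      ↔ ∀ p ∈ S, e i p = e j (σ p) := fun i j => h1 (fun p => e i p) (fun p => e j (σ p))
  have h3 : ∀ i j, ((fun p : {p // p ∈ S} => e i p.1) = fun p => e j p.1)
      ↔ ∀ p ∈ S, e i p = e j p := fun i j => h1 (fun p => e i p) (fun p => e j p)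
  have h4 : ∀ i j, ((fun p : {p // p ∈ S} => e i (σ p.1)) = fun p => e j (σ p.1))
      ↔ ∀ p ∈ S.map σ.toEmbedding, e i p = e j p := by
    intro i j
    rw [h1 (fun p => e i (σ p)) (fun p => e j (σ p))]
    constructor
    · intro h5 p hp
      rw [Finset.mem_map] at hp
      obtain ⟨q, hq, rfl⟩ := hp
      exact h5 q hq
    · intro h5 p hp
      exact h5 (σ p) (Finset.mem_map.2 ⟨p, hp, rfl⟩)
  simp only [h2, h3, h4] at h
  unfold QS
  exact h

open Classical in
/-- the second moment bound -/
theorem inner_bound {Ω : Type} [MeasurableSpace Ω] (ν : Measure Ω) (G : Ω → E → ℝ)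
    (hint : ∀ A B : Finset E, Integrable (fun ω => (∏ e ∈ A, G ω e) * ∏ e ∈ B, G ω e) ν)
    (hval : ∀ A B : Finset E, ∫ ω, (∏ e ∈ A, G ω e) * ∏ e ∈ B, G ω e ∂ν = if A = B then 1 else 0)
    (e : I → P ↪ E) (μ : E → ℝ) :
    ∫ ω, (∑ i, ∏ p, (G ω (e i p) + μ (e i p))) ^ 2 ∂ν
      ≤ (∑ i, ∏ p, μ (e i p)) ^ 2
        + ∑ i, ∑ j, (if (univ : Finset P).map (e i) = (univ : Finset P).map (e j) then 1 else 0)
        + (Fintype.card P).factorial *
          ∑ S ∈ (univ : Finset (Finset P)).filter (fun S => S ≠ ∅ ∧ S ≠ univ), QS e μ S := by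
  -- expansion
  set m : I → Finset P → ℝ := fun i S => ∏ p ∈ Sᶜ, μ (e i p) with hm
  have hexp : ∀ ω, ∑ i, ∏ p, (G ω (e i p) + μ (e i p))
      = ∑ i, ∑ S : Finset P, (∏ x ∈ S.map (e i), G ω x) * m i S := by
    intro ω
    refine Finset.sum_congr rfl fun i _ => ?_
    rw [Finset.prod_add, Finset.powerset_univ]
    refine Finset.sum_congr rfl fun S _ => ?_
    rw [Finset.prod_map, ← Finset.compl_eq_univ_sdiff]
  have hsq : ∀ ω, (∑ i, ∏ p, (G ω (e i p) + μ (e i p))) ^ 2
      = ∑ i, ∑ j, ∑ S : Finset P, ∑ S' : Finset P, (m i S * m j S') *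
        ((∏ x ∈ S.map (e i), G ω x) * ∏ x ∈ S'.map (e j), G ω x) := by
    intro ω
    rw [hexp, pow_two, Finset.sum_mul_sum]
    refine Finset.sum_congr rfl fun i _ => Finset.sum_congr rfl fun j _ => ?_
    rw [Finset.sum_mul_sum]
    refine Finset.sum_congr rfl fun S _ => Finset.sum_congr rfl fun S' _ => ?_
    ring
  have hI : ∫ ω, (∑ i, ∏ p, (G ω (e i p) + μ (e i p))) ^ 2 ∂ν
      = ∑ i, ∑ j, ∑ S : Finset P, ∑ S' : Finset P, (m i S * m j S') *
        (if S.map (e i) = S'.map (e j) then 1 else 0) := by
    simp only [hsq]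
    rw [integral_finsetSum]
    · refine Finset.sum_congr rfl fun i _ => ?_
      rw [integral_finsetSum]
      · refine Finset.sum_congr rfl fun j _ => ?_
        rw [integral_finsetSum]
        · refine Finset.sum_congr rfl fun S _ => ?_
          rw [integral_finsetSum]
          · refine Finset.sum_congr rfl fun S' _ => ?_
            rw [integral_const_mul, hval]
          · intro S' _
            exact (hint _ _).const_mul _
        · intro S _
          exact integrable_finsetSum _ fun S' _ => (hint _ _).const_mul _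
      · intro j _
        exact integrable_finsetSum _ fun S _ =>
          integrable_finsetSum _ fun S' _ => (hint _ _).const_mul _
    · intro i _
      exact integrable_finsetSum _ fun j _ => integrable_finsetSum _ fun S _ =>
        integrable_finsetSum _ fun S' _ => (hint _ _).const_mul _
  rw [hI]
  have habs : ∀ i S, |m i S| = mA e μ i S := by
    intro i S
    rw [hm, Finset.abs_prod]
    rfl
  -- the pointwise bound
  have hpt : ∀ i j S S', (m i S * m j S') * (if S.map (e i) = S'.map (e j) then (1 : ℝ) else 0)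
      ≤ (if S = ∅ ∧ S' = ∅ then m i S * m j S' else 0)
        + (if S = univ ∧ S' = univ then (if S.map (e i) = S'.map (e j) then 1 else 0) else 0)
        + (if S ≠ ∅ ∧ S ≠ univ then
          mA e μ i S * (if S.map (e i) = S'.map (e j) then mA e μ j S' else 0) else 0) := by
    intro i j S S'
    have hn1 : (0 : ℝ) ≤ (if S = univ ∧ S' = univ then
        (if S.map (e i) = S'.map (e j) then 1 else 0) else 0) := by
      split_ifs <;> norm_num
    have hn2 : (0 : ℝ) ≤ (if S ≠ ∅ ∧ S ≠ univ then
          mA e μ i S * (if S.map (e i) = S'.map (e j) then mA e μ j S' else 0) else 0) := by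
      split_ifs
      · exact mul_nonneg (mA_nonneg _ _ _ _) (mA_nonneg _ _ _ _)
      · rw [mul_zero]
      · exact le_rfl
    by_cases hδ : S.map (e i) = S'.map (e j)
    · have hcard : S.card = S'.card := by
        have := congrArg Finset.card hδ
        rwa [Finset.card_map, Finset.card_map] at this
      have e0 : (m i S * m j S') * (if S.map (e i) = S'.map (e j) then (1 : ℝ) else 0)
          = m i S * m j S' := by rw [if_pos hδ, mul_one]
      rw [e0]
      by_cases hS0 : S = ∅
      · have hS0' : S' = ∅ := by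
          rw [← Finset.card_eq_zero, ← hcard, hS0, Finset.card_empty]
        have e1 : (if S = ∅ ∧ S' = ∅ then m i S * m j S' else 0) = m i S * m j S' :=
          if_pos ⟨hS0, hS0'⟩
        rw [e1]
        linarith
      · have e1 : (if S = ∅ ∧ S' = ∅ then m i S * m j S' else 0) = 0 :=
          if_neg (fun h => hS0 h.1)
        rw [e1]
        by_cases hS1 : S = univ
        · have hS1' : S' = univ := by
            rw [← Finset.card_eq_iff_eq_univ, ← hcard, hS1, Finset.card_univ]
          have h2 : m i S * m j S' = 1 := by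
            rw [hm]
            simp [hS1, hS1']
          have e2 : (if S = univ ∧ S' = univ then
              (if S.map (e i) = S'.map (e j) then (1 : ℝ) else 0) else 0) = 1 := by
            rw [if_pos ⟨hS1, hS1'⟩, if_pos hδ]
          rw [h2, e2]
          linarith
        · have h3 : m i S * m j S' ≤ mA e μ i S * mA e μ j S' := by
            rw [← habs, ← habs, ← abs_mul]
            exact le_abs_self _
          have e3 : (if S ≠ ∅ ∧ S ≠ univ then
              mA e μ i S * (if S.map (e i) = S'.map (e j) then mA e μ j S' else 0) else 0)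
              = mA e μ i S * mA e μ j S' := by
            rw [if_pos ⟨hS0, hS1⟩, if_pos hδ]
          rw [e3]
          linarith
    · have e0 : (m i S * m j S') * (if S.map (e i) = S'.map (e j) then (1 : ℝ) else 0)
          = 0 := by rw [if_neg hδ, mul_zero]
      have e1 : (if S = ∅ ∧ S' = ∅ then m i S * m j S' else 0) = 0 := by
        rw [if_neg]
        intro h
        apply hδ
        rw [h.1, h.2]
        simp
      rw [e0, e1]
      linarith
  refine (Finset.sum_le_sum fun i _ => Finset.sum_le_sum fun j _ => Finset.sum_le_sum fun S _ =>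
    Finset.sum_le_sum fun S' _ => hpt i j S S').trans ?_
  simp only [Finset.sum_add_distrib]
  refine add_le_add (add_le_add (le_of_eq ?_) (le_of_eq ?_)) ?_
  · rw [pow_two, Finset.sum_mul_sum]
    refine Finset.sum_congr rfl fun i _ => Finset.sum_congr rfl fun j _ => ?_
    rw [Finset.sum_eq_single ∅, Finset.sum_eq_single ∅]
    · rw [if_pos ⟨rfl, rfl⟩, hm]
      simp
    · intro S' _ h
      rw [if_neg fun h' => h h'.2]
    · intro h; exact absurd (Finset.mem_univ _) h
    · intro S _ h
      refine Finset.sum_eq_zero fun S' _ => ?_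
      rw [if_neg fun h' => h h'.1]
    · intro h; exact absurd (Finset.mem_univ _) h
  · refine Finset.sum_congr rfl fun i _ => Finset.sum_congr rfl fun j _ => ?_
    rw [Finset.sum_eq_single univ, Finset.sum_eq_single univ]
    · rw [if_pos ⟨rfl, rfl⟩]
    · intro S' _ h
      rw [if_neg fun h' => h h'.2]
    · intro h; exact absurd (Finset.mem_univ _) h
    · intro S _ h
      refine Finset.sum_eq_zero fun S' _ => ?_
      rw [if_neg fun h' => h h'.1]
    · intro h; exact absurd (Finset.mem_univ _) h
  · -- the middle terms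
    have h1 : ∑ i, ∑ j, ∑ S : Finset P, ∑ S' : Finset P, (if S ≠ ∅ ∧ S ≠ univ then
          mA e μ i S * (if S.map (e i) = S'.map (e j) then mA e μ j S' else 0) else 0)
        ≤ ∑ i, ∑ j, ∑ S : Finset P, (if S ≠ ∅ ∧ S ≠ univ then
          ∑ σ : Equiv.Perm P, (if (∀ p ∈ S, e i p = e j (σ p)) then
            mA e μ i S * mA e μ j (S.map σ.toEmbedding) else 0) else 0) := by
      refine Finset.sum_le_sum fun i _ => Finset.sum_le_sum fun j _ =>
        Finset.sum_le_sum fun S _ => ?_
      by_cases hS : S ≠ ∅ ∧ S ≠ univ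
      · simp only [if_pos hS]
        rw [← Finset.mul_sum]
        refine (mul_le_mul_of_nonneg_left (match_le e μ i j S) (mA_nonneg e μ i S)).trans
          (le_of_eq ?_)
        rw [Finset.mul_sum]
        refine Finset.sum_congr rfl fun σ _ => ?_
        rw [mul_ite, mul_zero]
      · simp only [if_neg hS, Finset.sum_const_zero]
        exact le_rfl
    refine h1.trans ?_
    have h2 : ∑ i, ∑ j, ∑ S : Finset P, (if S ≠ ∅ ∧ S ≠ univ then
          ∑ σ : Equiv.Perm P, (if (∀ p ∈ S, e i p = e j (σ p)) then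
            mA e μ i S * mA e μ j (S.map σ.toEmbedding) else 0) else 0)
        = ∑ S : Finset P, (if S ≠ ∅ ∧ S ≠ univ then
          ∑ σ : Equiv.Perm P, ∑ i, ∑ j, (if (∀ p ∈ S, e i p = e j (σ p)) then
            mA e μ i S * mA e μ j (S.map σ.toEmbedding) else 0) else 0) := by
      have h3 : ∀ i, ∑ j, ∑ S : Finset P, (if S ≠ ∅ ∧ S ≠ univ then
          ∑ σ : Equiv.Perm P, (if (∀ p ∈ S, e i p = e j (σ p)) then
            mA e μ i S * mA e μ j (S.map σ.toEmbedding) else 0) else 0)
          = ∑ S : Finset P, ∑ j, (if S ≠ ∅ ∧ S ≠ univ then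
          ∑ σ : Equiv.Perm P, (if (∀ p ∈ S, e i p = e j (σ p)) then
            mA e μ i S * mA e μ j (S.map σ.toEmbedding) else 0) else 0) :=
        fun i => Finset.sum_comm
      simp only [h3]
      rw [Finset.sum_comm]
      refine Finset.sum_congr rfl fun S _ => ?_
      by_cases hS : S ≠ ∅ ∧ S ≠ univ
      · simp only [if_pos hS]
        conv_rhs => rw [Finset.sum_comm]
        refine Finset.sum_congr rfl fun i _ => ?_
        rw [Finset.sum_comm]
      · simp only [if_neg hS, Finset.sum_const_zero]
    rw [h2]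
    have h4 : ∑ S : Finset P, (if S ≠ ∅ ∧ S ≠ univ then
          ∑ σ : Equiv.Perm P, ∑ i, ∑ j, (if (∀ p ∈ S, e i p = e j (σ p)) then
            mA e μ i S * mA e μ j (S.map σ.toEmbedding) else 0) else 0)
        ≤ ∑ S : Finset P, (if S ≠ ∅ ∧ S ≠ univ then
          ∑ σ : Equiv.Perm P, (1 / 2 * QS e μ S + 1 / 2 * QS e μ (S.map σ.toEmbedding)) else 0) := by
      refine Finset.sum_le_sum fun S _ => ?_
      split_ifs with hS
      · exact Finset.sum_le_sum fun σ _ => pair_S e μ S σ
      · exact le_rfl
    refine h4.trans (le_of_eq ?_)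
    rw [← Finset.sum_filter]
    rw [Finset.sum_comm]
    have h5 : ∀ σ : Equiv.Perm P,
        ∑ S ∈ (univ : Finset (Finset P)).filter (fun S => S ≠ ∅ ∧ S ≠ univ),
          (1 / 2 * QS e μ S + 1 / 2 * QS e μ (S.map σ.toEmbedding))
        = ∑ S ∈ (univ : Finset (Finset P)).filter (fun S => S ≠ ∅ ∧ S ≠ univ), QS e μ S := by
      intro σ
      have h6 : ∑ S ∈ (univ : Finset (Finset P)).filter (fun S => S ≠ ∅ ∧ S ≠ univ),
          QS e μ (S.map σ.toEmbedding)
          = ∑ S ∈ (univ : Finset (Finset P)).filter (fun S => S ≠ ∅ ∧ S ≠ univ), QS e μ S := by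
        refine Finset.sum_nbij' (fun S => S.map σ.toEmbedding) (fun S => S.map σ.symm.toEmbedding)
          ?_ ?_ ?_ ?_ ?_
        · intro S hS
          rw [Finset.mem_filter] at hS ⊢
          refine ⟨Finset.mem_univ _, ?_, ?_⟩
          · intro h; exact hS.2.1 (Finset.map_eq_empty.1 h)
          · intro h
            apply hS.2.2
            rw [← Finset.card_eq_iff_eq_univ] at h ⊢
            rwa [Finset.card_map] at h
        · intro S hS
          rw [Finset.mem_filter] at hS ⊢
          refine ⟨Finset.mem_univ _, ?_, ?_⟩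
          · intro h; exact hS.2.1 (Finset.map_eq_empty.1 h)
          · intro h
            apply hS.2.2
            rw [← Finset.card_eq_iff_eq_univ] at h ⊢
            rwa [Finset.card_map] at h
        · intro S _
          ext x; simp
        · intro S _
          ext x; simp
        · intro S _; rfl
      rw [Finset.sum_add_distrib, ← Finset.mul_sum, ← Finset.mul_sum, h6]
      ring
    rw [Finset.sum_congr rfl fun σ _ => h5 σ, Finset.sum_const, Finset.card_univ,
      Fintype.card_perm, nsmul_eq_mul]

/-- the first moment -/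
theorem inner_mean {Ω : Type} [MeasurableSpace Ω] (ν : Measure Ω) (G : Ω → E → ℝ)
    (hint : ∀ A B : Finset E, Integrable (fun ω => (∏ e ∈ A, G ω e) * ∏ e ∈ B, G ω e) ν)
    (hval : ∀ A B : Finset E, ∫ ω, (∏ e ∈ A, G ω e) * ∏ e ∈ B, G ω e ∂ν = if A = B then 1 else 0)
    (e : I → P ↪ E) (μ : E → ℝ) :
    ∫ ω, (∑ i, ∏ p, (G ω (e i p) + μ (e i p))) ∂ν = ∑ i, ∏ p, μ (e i p) := by
  have hint' : ∀ A : Finset E, Integrable (fun ω => ∏ e ∈ A, G ω e) ν := by
    intro A
    have := hint A ∅
    simpa using this
  have hval' : ∀ A : Finset E, ∫ ω, ∏ e ∈ A, G ω e ∂ν = if A = ∅ then 1 else 0 := by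
    intro A
    have := hval A ∅
    simpa using this
  have hexp : ∀ ω, ∑ i, ∏ p, (G ω (e i p) + μ (e i p))
      = ∑ i, ∑ S : Finset P, (∏ p ∈ Sᶜ, μ (e i p)) * ∏ x ∈ S.map (e i), G ω x := by
    intro ω
    refine Finset.sum_congr rfl fun i _ => ?_
    rw [Finset.prod_add, Finset.powerset_univ]
    refine Finset.sum_congr rfl fun S _ => ?_
    rw [Finset.prod_map, ← Finset.compl_eq_univ_sdiff, mul_comm]
  simp only [hexp]
  rw [integral_finsetSum]
  · refine Finset.sum_congr rfl fun i _ => ?_
    rw [integral_finsetSum]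
    · rw [Finset.sum_eq_single ∅]
      · rw [integral_const_mul, hval']
        simp
      · intro S _ hS
        rw [integral_const_mul, hval', if_neg, mul_zero]
        rwa [Finset.map_eq_empty]
      · intro h; exact absurd (Finset.mem_univ _) h
    · intro S _
      exact (hint' _).const_mul _
  · intro i _
    exact integrable_finsetSum _ fun S _ => (hint' _).const_mul _

end Pool.Agent.R563.SPca
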