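import Pool.Agent.R563.SPca.Fixed

set_option autoImplicit false

/-! # Asymptotics -/

noncomputable section

namespace Pool.Agent.R563.SPca

open MeasureTheory ProbabilityTheory Finset Filter Asymptotics Topology

/-- the mean of the cycle count -/
def mn (n N m : ℕ) (β : ℝ) : ℝ :=
  (n.descFactorial (m + 2) * N.descFactorial (m + 2) : ℕ) * (β / n) ^ (m + 2)

/-- normalized falling factorials -/
def ff (n q : ℕ) : ℝ := (n.descFactorial q : ℕ) / (n : ℝ) ^ q

theorem ff_tendsto (q : ℕ) : Tendsto (fun n => ff n q) atTop (𝓝 1) := by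
  have h := isEquivalent_descFactorial q
  rw [isEquivalent_iff_tendsto_one] at h
  · exact h
  · filter_upwards [eventually_ge_atTop 1] with n hn
    have : (n : ℝ) ≠ 0 := by
      have : 0 < n := hn
      exact_mod_cast this.ne'
    exact pow_ne_zero _ this

theorem mn_eq {n N m : ℕ} {β : ℝ} (hn : n ≠ 0) (hN : N ≠ 0) :
    mn n N m β = β ^ (m + 2) * (N : ℝ) ^ (m + 2) * (ff n (m + 2) * ff N (m + 2)) := by
  unfold mn ff
  have h1 : (n : ℝ) ≠ 0 := by exact_mod_cast hn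
  have h2 : (N : ℝ) ≠ 0 := by exact_mod_cast hN
  push_cast
  rw [div_pow]
  field_simp

/-- the constant of the middle terms -/
def Kc (m : ℕ) (β g : ℝ) : ℝ :=
  (2 * (m + 2)).factorial * ∑ S ∈ mid m, β ^ (Sᶜ).card * g ^ r0 S * (cX (Sᶜ).card * cU (Sᶜ).card)

/-- the upper bound for the normalized moments of `|u|²` -/
def upU (N q : ℕ) : ℝ := ff N q + (1 - ff N q) * cU q

theorem mU_le_up {N q : ℕ} (hN : N ≠ 0) : mU N q ≤ (N : ℝ) ^ q * upU N q := by
  refine (mU_le N q).trans (le_of_eq ?_)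
  unfold upU ff
  have h2 : (N : ℝ) ≠ 0 := by exact_mod_cast hN
  field_simp

/-- the normalized bound -/
theorem Bd_le {n N m : ℕ} {k β : ℝ} (hn : n ≠ 0) (hN : N ≠ 0) (hβ : 0 < β) (hk : 1 ≤ k)
    (hkn : k ≤ n) :
    Bd n N m k β ≤ (N : ℝ) ^ (2 * (m + 2)) * (β ^ (2 * (m + 2))
      * ((1 + (2 * m + 3 : ℕ) ^ 2 * cX (2 * m + 3) / k) * upU N (2 * (m + 2)))
      + 2 * (m + 2) * ((n : ℝ) / N) ^ (m + 2) + Kc m β ((n : ℝ) / N) / N) := by
  have hk0 : 0 < k := by linarith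
  have hN0 : (0 : ℝ) < N := by exact_mod_cast Nat.pos_of_ne_zero hN
  have hN1 : (1 : ℝ) ≤ N := by exact_mod_cast Nat.pos_of_ne_zero hN
  have hn0 : (0 : ℝ) < n := by exact_mod_cast Nat.pos_of_ne_zero hn
  unfold Bd
  have hsplit : ∀ M A B C : ℝ, M * (A + B + C) = M * A + M * B + M * C := by
    intro M A B C; ring
  rw [hsplit]
  refine add_le_add (add_le_add ?_ ?_) ?_
  · have h1 : mX n k (2 * (m + 2)) ≤ 1 + (2 * m + 3 : ℕ) ^ 2 * cX (2 * m + 3) / k :=
      mX_le' hn hk hkn (2 * m + 3)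
    have h2 := mU_le_up (q := 2 * (m + 2)) hN
    have h3 := mU_nonneg N (2 * (m + 2))
    have h4 := mX_nonneg hn hk0 hkn (2 * (m + 2))
    calc β ^ (2 * (m + 2)) * mX n k (2 * (m + 2)) * mU N (2 * (m + 2))
        = β ^ (2 * (m + 2)) * (mX n k (2 * (m + 2)) * mU N (2 * (m + 2))) := by ring
      _ ≤ β ^ (2 * (m + 2)) * ((1 + (2 * m + 3 : ℕ) ^ 2 * cX (2 * m + 3) / k)
          * ((N : ℝ) ^ (2 * (m + 2)) * upU N (2 * (m + 2)))) := by
          apply mul_le_mul_of_nonneg_left _ (by positivity)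
          exact mul_le_mul h1 h2 h3 (h4.trans h1)
      _ = _ := by ring
  · have h1 : ((n.descFactorial (m + 2) * N.descFactorial (m + 2) : ℕ) : ℝ)
        ≤ (n : ℝ) ^ (m + 2) * (N : ℝ) ^ (m + 2) := by
      exact_mod_cast Nat.mul_le_mul (Nat.descFactorial_le_pow n (m + 2))
        (Nat.descFactorial_le_pow N (m + 2))
    calc 2 * ((m : ℝ) + 2) * (n.descFactorial (m + 2) * N.descFactorial (m + 2) : ℕ)
        ≤ 2 * ((m : ℝ) + 2) * ((n : ℝ) ^ (m + 2) * (N : ℝ) ^ (m + 2)) :=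
          mul_le_mul_of_nonneg_left h1 (by positivity)
      _ = (N : ℝ) ^ (2 * (m + 2)) * (2 * (m + 2) * ((n : ℝ) / N) ^ (m + 2)) := by
          rw [div_pow, mul_comm 2 (m + 2), pow_mul]
          field_simp
  · have h1 : ∀ S ∈ mid m, β ^ (Sᶜ).card * ((n : ℝ) ^ r0 S * mX n k (Sᶜ).card)
        * ((N : ℝ) ^ c0 S * mU N (Sᶜ).card)
        ≤ (N : ℝ) ^ (2 * (m + 2)) * (β ^ (Sᶜ).card * ((n : ℝ) / N) ^ r0 S
          * (cX (Sᶜ).card * cU (Sᶜ).card) / N) := by
      intro S hS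
      unfold mid at hS
      rw [Finset.mem_filter] at hS
      have h2 := comb_ineq hS.2.1 hS.2.2
      have h3 := mX_le hn hk hkn (Sᶜ).card
      have h4 := mU_le' N (Sᶜ).card
      have h5 := mX_nonneg hn hk0 hkn (Sᶜ).card
      have h6 := mU_nonneg N (Sᶜ).card
      have h7 := (cX_pos (Sᶜ).card).le
      have h8 := cU_ge (Sᶜ).card
      calc β ^ (Sᶜ).card * ((n : ℝ) ^ r0 S * mX n k (Sᶜ).card)
            * ((N : ℝ) ^ c0 S * mU N (Sᶜ).card)
          = (β ^ (Sᶜ).card * (n : ℝ) ^ r0 S * (N : ℝ) ^ c0 S)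
            * (mX n k (Sᶜ).card * mU N (Sᶜ).card) := by ring
        _ ≤ (β ^ (Sᶜ).card * (n : ℝ) ^ r0 S * (N : ℝ) ^ c0 S)
            * (cX (Sᶜ).card * (cU (Sᶜ).card * (N : ℝ) ^ (Sᶜ).card)) := by
            apply mul_le_mul_of_nonneg_left _ (by positivity)
            exact mul_le_mul h3 h4 h6 h7
        _ = (β ^ (Sᶜ).card * ((n : ℝ) / N) ^ r0 S * (cX (Sᶜ).card * cU (Sᶜ).card))
            * (N : ℝ) ^ (r0 S + c0 S + (Sᶜ).card) := by
            rw [div_pow, pow_add, pow_add]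
            field_simp
        _ ≤ (β ^ (Sᶜ).card * ((n : ℝ) / N) ^ r0 S * (cX (Sᶜ).card * cU (Sᶜ).card))
            * ((N : ℝ) ^ (2 * (m + 2)) / N) := by
            apply mul_le_mul_of_nonneg_left
            · rw [le_div_iff₀ hN0, ← pow_succ]
              exact pow_le_pow_right₀ hN1 (by omega)
            · have : 0 ≤ cU (Sᶜ).card := by linarith
              positivity
        _ = _ := by ring
    calc ((2 * (m + 2)).factorial : ℝ) * ∑ S ∈ mid m, β ^ (Sᶜ).card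
          * ((n : ℝ) ^ r0 S * mX n k (Sᶜ).card) * ((N : ℝ) ^ c0 S * mU N (Sᶜ).card)
        ≤ ((2 * (m + 2)).factorial : ℝ) * ∑ S ∈ mid m, (N : ℝ) ^ (2 * (m + 2))
          * (β ^ (Sᶜ).card * ((n : ℝ) / N) ^ r0 S * (cX (Sᶜ).card * cU (Sᶜ).card) / N) :=
          mul_le_mul_of_nonneg_left (Finset.sum_le_sum h1) (by positivity)
      _ = _ := by
          unfold Kc
          rw [← Finset.mul_sum, ← Finset.sum_div]
          ring

/-- the limit of the normalized variance -/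
def lim (m : ℕ) (β γ : ℝ) : ℝ := 2 * (m + 2) * (γ / β ^ 2) ^ (m + 2)

section asym

variable {β γ : ℝ} {N : ℕ → ℕ} {k : ℕ → ℝ}

theorem N_tendsto (hγ : 0 < γ) (hN : Tendsto (fun n : ℕ => (n : ℝ) / N n) atTop (𝓝 γ)) :
    Tendsto N atTop atTop := by
  have h1 : ∀ᶠ n : ℕ in atTop, (n : ℝ) / N n < γ + 1 := hN.eventually (gt_mem_nhds (by linarith))
  have h2 : ∀ᶠ n : ℕ in atTop, 0 < (n : ℝ) / N n := hN.eventually (lt_mem_nhds hγ)
  rw [← tendsto_natCast_atTop_iff (R := ℝ)]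
  refine tendsto_atTop_mono' atTop (f₁ := fun n : ℕ => (n : ℝ) / (γ + 1)) ?_ ?_
  · filter_upwards [h1, h2] with n h3 h4
    have hN0 : (0 : ℝ) < N n := by
      rcases Nat.eq_zero_or_pos (N n) with h | h
      · rw [h] at h4
        simp at h4
      · exact_mod_cast h
    rw [div_lt_iff₀ hN0] at h3
    rw [div_le_iff₀ (by linarith)]
    linarith
  · exact tendsto_natCast_atTop_atTop.atTop_div_const (by linarith)

/-- for every fixed length the variances are eventually small -/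
theorem fixed_length (hβ : 0 < β) (hγ : 0 < γ)
    (hN : Tendsto (fun n : ℕ => (n : ℝ) / N n) atTop (𝓝 γ))
    (hk : Tendsto k atTop atTop) (hkn : Tendsto (fun n : ℕ => k n / n) atTop (𝓝 0))
    (m : ℕ) {ε : ℝ} (hε : 0 < ε) :
    ∀ᶠ n : ℕ in atTop, 0 < mn n (N n) m β ∧
      ∫ Y, MvPolynomial.eval Y (cycPoly n (N n) m) ∂(plantedLaw n (N n) (k n) β) = mn n (N n) m β ∧
      max Var[fun Y => MvPolynomial.eval Y (cycPoly n (N n) m); plantedLaw n (N n) (k n) β]
        Var[fun Y => MvPolynomial.eval Y (cycPoly n (N n) m); nullLaw n (N n)]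
        ≤ 2 * (lim m β γ + ε) * (mn n (N n) m β) ^ 2 := by
  have hNt := N_tendsto hγ hN
  have hNr : Tendsto (fun n => (N n : ℝ)) atTop atTop := tendsto_natCast_atTop_atTop.comp hNt
  -- limits of the pieces
  have hff1 := ff_tendsto (m + 2)
  have hff2 : Tendsto (fun n => ff (N n) (m + 2)) atTop (𝓝 1) := (ff_tendsto (m + 2)).comp hNt
  have hab : Tendsto (fun n => ff n (m + 2) * ff (N n) (m + 2)) atTop (𝓝 1) := by
    have := hff1.mul hff2
    rwa [one_mul] at this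
  have hup : Tendsto (fun n => upU (N n) (2 * (m + 2))) atTop (𝓝 1) := by
    have h1 : Tendsto (fun n => ff (N n) (2 * (m + 2))) atTop (𝓝 1) :=
      (ff_tendsto (2 * (m + 2))).comp hNt
    have h2 := h1.add ((h1.const_sub 1).mul_const (cU (2 * (m + 2))))
    unfold upU
    simpa using h2
  have hX : Tendsto (fun n => 1 + ((2 * m + 3 : ℕ) : ℝ) ^ 2 * cX (2 * m + 3) / k n) atTop
      (𝓝 1) := by
    have h1 := hk.const_div_atTop (((2 * m + 3 : ℕ) : ℝ) ^ 2 * cX (2 * m + 3))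
    have h2 := h1.const_add 1
    rwa [add_zero] at h2
  have hg : Tendsto (fun n : ℕ => ((n : ℝ) / N n) ^ (m + 2)) atTop (𝓝 (γ ^ (m + 2))) :=
    hN.pow (m + 2)
  have hK : Tendsto (fun n : ℕ => Kc m β ((n : ℝ) / N n) / N n) atTop (𝓝 0) := by
    have h1 : Tendsto (fun n : ℕ => Kc m β ((n : ℝ) / N n)) atTop (𝓝 (Kc m β γ)) := by
      unfold Kc
      apply Tendsto.const_mul
      apply tendsto_finsetSum
      intro S _
      exact ((hN.pow (r0 S)).const_mul _).mul_const _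
    exact h1.div_atTop hNr
  set R : ℕ → ℝ := fun n => β ^ (2 * (m + 2))
      * ((1 + ((2 * m + 3 : ℕ) : ℝ) ^ 2 * cX (2 * m + 3) / k n) * upU (N n) (2 * (m + 2)))
      + 2 * (m + 2) * ((n : ℝ) / N n) ^ (m + 2) + Kc m β ((n : ℝ) / N n) / N n with hR
  have hβ2 : 0 < β ^ (2 * (m + 2)) := by positivity
  have hRlim : Tendsto (fun n => R n - β ^ (2 * (m + 2)) * (ff n (m + 2) * ff (N n) (m + 2)) ^ 2)
      atTop (𝓝 (β ^ (2 * (m + 2)) * lim m β γ)) := by
    have h1 := ((((hX.mul hup).const_mul (β ^ (2 * (m + 2)))).add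
      (hg.const_mul (2 * ((m : ℝ) + 2)))).add hK).sub ((hab.pow 2).const_mul (β ^ (2 * (m + 2))))
    have h2 : β ^ (2 * (m + 2)) * (1 * 1) + 2 * ((m : ℝ) + 2) * γ ^ (m + 2) + 0
        - β ^ (2 * (m + 2)) * 1 ^ 2 = β ^ (2 * (m + 2)) * lim m β γ := by
      unfold lim
      rw [div_pow, ← pow_mul]
      field_simp
      ring
    rw [h2] at h1
    exact h1
  have hQlim : Tendsto (fun n : ℕ => 2 * ((m : ℝ) + 2) * ((n : ℝ) / N n) ^ (m + 2)) atTop
      (𝓝 (β ^ (2 * (m + 2)) * lim m β γ)) := by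
    have h1 := hg.const_mul (2 * ((m : ℝ) + 2))
    have h2 : 2 * ((m : ℝ) + 2) * γ ^ (m + 2) = β ^ (2 * (m + 2)) * lim m β γ := by
      unfold lim
      rw [div_pow, ← pow_mul]
      field_simp
    rw [h2] at h1
    exact h1
  have hlt : β ^ (2 * (m + 2)) * lim m β γ < β ^ (2 * (m + 2)) * (lim m β γ + ε) :=
    mul_lt_mul_of_pos_left (by linarith) hβ2
  have hlim0 : 0 ≤ lim m β γ := by unfold lim; positivity
  have hsq : ∀ᶠ n in atTop, 1 / 2 < (ff n (m + 2) * ff (N n) (m + 2)) ^ 2 := by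
    have h1 := hab.pow 2
    rw [one_pow] at h1
    exact h1.eventually (lt_mem_nhds (by norm_num))
  have habpos : ∀ᶠ n in atTop, 0 < ff n (m + 2) * ff (N n) (m + 2) :=
    hab.eventually (lt_mem_nhds one_pos)
  have hkn' : ∀ᶠ n : ℕ in atTop, k n / n < 1 := hkn.eventually (gt_mem_nhds one_pos)
  filter_upwards [hRlim.eventually (gt_mem_nhds hlt), hQlim.eventually (gt_mem_nhds hlt), hsq,
    habpos, hkn', hk.eventually_ge_atTop 1, eventually_ge_atTop 1,
    hNt.eventually_ge_atTop 1] with n h1 h2 h3 h4 h5 h6 h7 h8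
  have hn : n ≠ 0 := by omega
  have hN' : N n ≠ 0 := by omega
  have hn0 : (0 : ℝ) < n := by exact_mod_cast Nat.pos_of_ne_zero hn
  have hN0 : (0 : ℝ) < N n := by exact_mod_cast Nat.pos_of_ne_zero hN'
  have hkn1 : k n ≤ n := by
    rw [div_lt_one hn0] at h5
    exact h5.le
  have hk0 : 0 < k n := by linarith
  have hmn : mn n (N n) m β
      = β ^ (m + 2) * (N n : ℝ) ^ (m + 2) * (ff n (m + 2) * ff (N n) (m + 2)) := mn_eq hn hN'
  have hmn2 : (mn n (N n) m β) ^ 2 = (N n : ℝ) ^ (2 * (m + 2)) * (β ^ (2 * (m + 2))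
      * (ff n (m + 2) * ff (N n) (m + 2)) ^ 2) := by
    rw [hmn]; ring
  have hNp : 0 < (N n : ℝ) ^ (2 * (m + 2)) := by positivity
  refine ⟨?_, planted_mean hn hβ.le hk0 hkn1, ?_⟩
  · rw [hmn]; positivity
  · have hfin : (N n : ℝ) ^ (2 * (m + 2)) * (β ^ (2 * (m + 2)) * (lim m β γ + ε))
        ≤ 2 * (lim m β γ + ε) * (mn n (N n) m β) ^ 2 := by
      rw [hmn2]
      have e1 : 0 ≤ (N n : ℝ) ^ (2 * (m + 2)) * β ^ (2 * (m + 2)) * (lim m β γ + ε) := by
        positivity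
      nlinarith
    refine le_trans ?_ hfin
    apply max_le
    · refine (planted_var hn hβ.le hk0 hkn1).trans ?_
      have e2 := Bd_le (m := m) hn hN' hβ h6 hkn1
      have e3 : (n.descFactorial (m + 2) * (N n).descFactorial (m + 2) : ℕ)
          * (β / n) ^ (m + 2) = mn n (N n) m β := rfl
      rw [e3, hmn2]
      calc Bd n (N n) m (k n) β - (N n : ℝ) ^ (2 * (m + 2)) * (β ^ (2 * (m + 2))
            * (ff n (m + 2) * ff (N n) (m + 2)) ^ 2)
          ≤ (N n : ℝ) ^ (2 * (m + 2)) * R n - (N n : ℝ) ^ (2 * (m + 2)) * (β ^ (2 * (m + 2))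
            * (ff n (m + 2) * ff (N n) (m + 2)) ^ 2) := by
            have : Bd n (N n) m (k n) β ≤ (N n : ℝ) ^ (2 * (m + 2)) * R n := e2
            linarith
        _ = (N n : ℝ) ^ (2 * (m + 2)) * (R n - β ^ (2 * (m + 2))
            * (ff n (m + 2) * ff (N n) (m + 2)) ^ 2) := by ring
        _ ≤ _ := mul_le_mul_of_nonneg_left h1.le hNp.le
    · refine (null_var n (N n) m).trans ?_
      have e4 : ((n.descFactorial (m + 2) * (N n).descFactorial (m + 2) : ℕ) : ℝ)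
          ≤ (n : ℝ) ^ (m + 2) * (N n : ℝ) ^ (m + 2) := by
        exact_mod_cast Nat.mul_le_mul (Nat.descFactorial_le_pow n (m + 2))
          (Nat.descFactorial_le_pow (N n) (m + 2))
      calc 2 * ((m : ℝ) + 2) * (n.descFactorial (m + 2) * (N n).descFactorial (m + 2) : ℕ)
          ≤ 2 * ((m : ℝ) + 2) * ((n : ℝ) ^ (m + 2) * (N n : ℝ) ^ (m + 2)) :=
            mul_le_mul_of_nonneg_left e4 (by positivity)
        _ = (N n : ℝ) ^ (2 * (m + 2)) * (2 * (m + 2) * ((n : ℝ) / N n) ^ (m + 2)) := by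
            rw [div_pow, mul_comm 2 (m + 2), pow_mul]
            field_simp
        _ ≤ _ := mul_le_mul_of_nonneg_left h2.le hNp.le

/-- a diagonal argument -/
theorem diag {good : ℕ → ℕ → Prop} (h : ∀ m, ∀ᶠ n in atTop, good m n) :
    ∃ μ : ℕ → ℕ, Tendsto μ atTop atTop ∧ ∀ᶠ n in atTop, good (μ n) n := by
  classical
  refine ⟨fun n => Nat.findGreatest (fun m => good m n) n, ?_, ?_⟩
  · rw [tendsto_atTop]
    intro M
    filter_upwards [h M, eventually_ge_atTop M] with n h1 h2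
    exact Nat.le_findGreatest h2 h1
  · filter_upwards [h 0] with n h1
    exact Nat.findGreatest_spec (P := fun m => good m n) (Nat.zero_le n) h1

theorem lim_tendsto (hβ : 0 < β) (hγ : 0 < γ) (hl : 1 < β / √γ) :
    Tendsto (fun m => 2 * (lim m β γ + 1 / ((m : ℝ) + 1))) atTop (𝓝 0) := by
  have hρ : γ / β ^ 2 < 1 := by
    rw [div_lt_one (by positivity)]
    rw [one_lt_div (by positivity)] at hl
    calc γ = √γ ^ 2 := (Real.sq_sqrt hγ.le).symm
      _ < β ^ 2 := pow_lt_pow_left₀ hl (by positivity) (by norm_num)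
  have hρ0 : 0 ≤ γ / β ^ 2 := by positivity
  have h1 := (tendsto_add_atTop_iff_nat 2).2 (tendsto_self_mul_const_pow_of_lt_one hρ0 hρ)
  have h2 := (h1.const_mul 2).add (tendsto_one_div_add_atTop_nhds_zero_nat (𝕜 := ℝ))
  have h3 := h2.const_mul 2
  simp only [mul_zero, add_zero] at h3
  refine h3.congr fun m => ?_
  unfold lim
  push_cast
  ring

/-- the main theorem -/
theorem main (hβ : 0 < β) (hγ : 0 < γ) (hl : 1 < β / √γ)
    (hN : Tendsto (fun n : ℕ => (n : ℝ) / N n) atTop (𝓝 γ))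
    (hk : Tendsto k atTop atTop) (hkn : Tendsto (fun n : ℕ => k n / n) atTop (𝓝 0))
    {D : ℕ → ℕ} (hD : Tendsto D atTop atTop) :
    ∃ f : (n : ℕ) → MvPolynomial (Fin n × Fin (N n)) ℝ,
      (∀ n, (f n).totalDegree ≤ D n) ∧
      StronglySeparates N (fun n => plantedLaw n (N n) (k n) β) (fun n => nullLaw n (N n)) f := by
  classical
  set good : ℕ → ℕ → Prop := fun m n => 2 * (m + 2) ≤ D n ∧ (0 < mn n (N n) m β ∧
      ∫ Y, MvPolynomial.eval Y (cycPoly n (N n) m) ∂(plantedLaw n (N n) (k n) β) = mn n (N n) m β ∧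
      max Var[fun Y => MvPolynomial.eval Y (cycPoly n (N n) m); plantedLaw n (N n) (k n) β]
        Var[fun Y => MvPolynomial.eval Y (cycPoly n (N n) m); nullLaw n (N n)]
        ≤ 2 * (lim m β γ + 1 / ((m : ℝ) + 1)) * (mn n (N n) m β) ^ 2) with hgood
  have h1 : ∀ m, ∀ᶠ n in atTop, good m n := by
    intro m
    filter_upwards [hD.eventually_ge_atTop (2 * (m + 2)),
      fixed_length hβ hγ hN hk hkn m (ε := 1 / ((m : ℝ) + 1)) (by positivity)] with n e1 e2
    exact ⟨e1, e2⟩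
  obtain ⟨μ, hμ, hμg⟩ := diag h1
  refine ⟨fun n => if 2 * (μ n + 2) ≤ D n then cycPoly n (N n) (μ n) else 0, ?_, ?_⟩
  · intro n
    simp only
    split_ifs with h
    · exact (totalDegree_cyc n (N n) (μ n)).trans h
    · rw [MvPolynomial.totalDegree_zero]; exact Nat.zero_le _
  · unfold StronglySeparates
    rw [isLittleO_iff]
    intro δ hδ
    have h2 := (lim_tendsto hβ hγ hl).comp hμ
    have h3 := h2.eventually (gt_mem_nhds (by positivity : (0 : ℝ) < δ ^ 2))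
    filter_upwards [hμg, h3] with n h4 h5
    simp only [hgood] at h4
    simp only [Function.comp_apply] at h5
    simp only [if_pos h4.1]
    rw [h4.2.2.1, null_mean, sub_zero, Real.norm_of_nonneg (Real.sqrt_nonneg _),
      Real.norm_of_nonneg h4.2.1.le]
    calc √(max Var[fun Y => MvPolynomial.eval Y (cycPoly n (N n) (μ n));
            plantedLaw n (N n) (k n) β]
          Var[fun Y => MvPolynomial.eval Y (cycPoly n (N n) (μ n)); nullLaw n (N n)])
        ≤ √((δ * mn n (N n) (μ n) β) ^ 2) := by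
          apply Real.sqrt_le_sqrt
          refine h4.2.2.2.trans ?_
          rw [mul_pow]
          exact mul_le_mul_of_nonneg_right h5.le (sq_nonneg _)
      _ = δ * mn n (N n) (μ n) β := Real.sqrt_sq (mul_nonneg hδ.le h4.2.1.le)

end asym

end Pool.Agent.R563.SPca
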