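import Pool.Agent.R563.SPca.Cond

set_option autoImplicit false

/-! # Moments of the norms of the factors -/

noncomputable section

namespace Pool.Agent.R563.SPca

open MeasureTheory ProbabilityTheory Finset

/-! ### Sums over embeddings -/

section inj

variable {ι : Type} [Fintype ι] [DecidableEq ι]

/-- the sum of the products over distinct indices -/
def injSum (w : ι → ℝ) (q : ℕ) : ℝ := ∑ a : Fin q ↪ ι, ∏ t, w (a t)

theorem injSum_nonneg {w : ι → ℝ} (hw : ∀ i, 0 ≤ w i) (q : ℕ) : 0 ≤ injSum w q :=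
  Finset.sum_nonneg fun _ _ => Finset.prod_nonneg fun _ _ => hw _

theorem injSum_zero (w : ι → ℝ) : injSum w 0 = 1 := by
  unfold injSum
  simp

theorem injSum_succ (w : ι → ℝ) (q : ℕ) :
    injSum w (q + 1) = ∑ e : Fin q ↪ ι, (∏ t, w (e t)) * ∑ i : {i // i ∉ Set.range e}, w i.1 := by
  classical
  unfold injSum
  rw [← Equiv.sum_comp (Equiv.embeddingFinSucc q ι).symm, Fintype.sum_sigma]
  refine Finset.sum_congr rfl fun e _ => ?_
  rw [Finset.mul_sum]
  refine Finset.sum_congr rfl fun i _ => ?_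
  rw [Fin.prod_univ_succ, mul_comm]
  congr 1

theorem inj_step {w : ι → ℝ} (hw : ∀ i, 0 ≤ w i) {c : ℝ} (hc : ∀ i, w i ≤ c) (q : ℕ) :
    (∑ i, w i) * injSum w q ≤ injSum w (q + 1) + q * c * injSum w q := by
  classical
  rw [injSum_succ]
  unfold injSum
  rw [Finset.mul_sum, Finset.mul_sum, ← Finset.sum_add_distrib]
  refine Finset.sum_le_sum fun e _ => ?_
  have hP : 0 ≤ ∏ t, w (e t) := Finset.prod_nonneg fun _ _ => hw _
  have hf : ∑ i : {i // i ∉ Set.range e}, w i.1
      = ∑ i ∈ univ.filter (fun i => ¬ i ∈ (univ : Finset (Fin q)).map e), w i := by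
    symm
    apply Finset.sum_subtype
    intro i
    simp
  have h1 : ∑ i, w i = ∑ i ∈ (univ : Finset (Fin q)).map e, w i
      + ∑ i : {i // i ∉ Set.range e}, w i.1 := by
    rw [hf, ← Finset.sum_filter_add_sum_filter_not univ
      (fun i => i ∈ (univ : Finset (Fin q)).map e) w]
    congr 1
    apply Finset.sum_congr _ fun _ _ => rfl
    ext i
    simp
  have h2 : ∑ i ∈ (univ : Finset (Fin q)).map e, w i ≤ q * c := by
    calc ∑ i ∈ (univ : Finset (Fin q)).map e, w i ≤ ∑ _i ∈ (univ : Finset (Fin q)).map e, c :=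
          Finset.sum_le_sum fun i _ => hc _
      _ = q * c := by
          rw [Finset.sum_const, Finset.card_map, Finset.card_univ, Fintype.card_fin, nsmul_eq_mul]
  rw [h1]
  nlinarith

theorem injSum_le {w : ι → ℝ} (hw : ∀ i, 0 ≤ w i) (q : ℕ) : injSum w q ≤ (∑ i, w i) ^ q := by
  have h1 : (∑ i, w i) ^ q = ∑ a : Fin q → ι, ∏ t, w (a t) := by
    rw [← Fin.prod_const, Finset.prod_univ_sum, Fintype.piFinset_univ]
  rw [h1]
  unfold injSum
  have hinj : Function.Injective (fun (a : Fin q ↪ ι) (t : Fin q) => a t) :=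
    fun a b h => DFunLike.coe_injective h
  rw [← Finset.sum_image (f := fun a : Fin q → ι => ∏ t, w (a t))
    (g := fun (a : Fin q ↪ ι) (t : Fin q) => a t) (s := univ) (fun a _ b _ hab => hinj hab)]
  exact Finset.sum_le_sum_of_subset_of_nonneg (Finset.subset_univ _)
    fun j _ _ => Finset.prod_nonneg fun _ _ => hw _

theorem pow_le_injSum {w : ι → ℝ} (hw : ∀ i, 0 ≤ w i) {c : ℝ} (hc0 : 0 ≤ c) (hc : ∀ i, w i ≤ c)
    (q : ℕ) : (∑ i, w i) ^ (q + 1) ≤ injSum w (q + 1) + q ^ 2 * c * (∑ i, w i) ^ q := by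
  have hS : 0 ≤ ∑ i, w i := Finset.sum_nonneg fun i _ => hw i
  induction q with
  | zero =>
    have := inj_step hw hc 0
    rw [injSum_zero] at this
    simp only [Nat.cast_zero, zero_mul, add_zero, mul_one] at this
    simpa using this
  | succ q ih =>
    have h1 := inj_step hw hc (q + 1)
    have h2 := injSum_le hw (q + 1)
    have h3 := injSum_nonneg hw (q + 1)
    have h4 : 0 ≤ (∑ i, w i) ^ (q + 1) := pow_nonneg hS _
    set S := ∑ i, w i
    calc S ^ (q + 1 + 1) = S * S ^ (q + 1) := by ring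
      _ ≤ S * (injSum w (q + 1) + q ^ 2 * c * S ^ q) := mul_le_mul_of_nonneg_left ih hS
      _ = S * injSum w (q + 1) + q ^ 2 * c * S ^ (q + 1) := by ring
      _ ≤ injSum w (q + 1 + 1) + (q + 1 : ℕ) * c * injSum w (q + 1) + q ^ 2 * c * S ^ (q + 1) := by
          linarith
      _ ≤ injSum w (q + 1 + 1) + (q + 1 : ℕ) * c * S ^ (q + 1) + q ^ 2 * c * S ^ (q + 1) := by
          have : ((q + 1 : ℕ) : ℝ) * c * injSum w (q + 1) ≤ (q + 1 : ℕ) * c * S ^ (q + 1) :=
            mul_le_mul_of_nonneg_left h2 (by positivity)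
          linarith
      _ ≤ injSum w (q + 1 + 1) + ((q + 1 : ℕ) : ℝ) ^ 2 * c * S ^ (q + 1) := by
          have h5 : 0 ≤ c * S ^ (q + 1) := mul_nonneg hc0 h4
          have h6 : (0 : ℝ) ≤ q := Nat.cast_nonneg q
          push_cast
          nlinarith

end inj

/-! ### The sparse factor -/

/-- expectation over the signs -/
def EX (n : ℕ) (k : ℝ) (F : (Fin n → SignType) → ℝ) : ℝ :=
  ∑ s : Fin n → SignType, (∏ i, signWt k n (s i)) * F s

theorem signWt_nonneg {k : ℝ} {n : ℕ} (h0 : 0 ≤ k) (h1 : k ≤ n) (s : SignType) :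
    0 ≤ signWt k n s := by
  unfold signWt
  split_ifs
  · have : k / n ≤ 1 := div_le_one_of_le₀ h1 (by positivity)
    linarith
  · positivity

theorem wt_nonneg {k : ℝ} {n : ℕ} (h0 : 0 ≤ k) (h1 : k ≤ n) (s : Fin n → SignType) :
    0 ≤ ∏ i, signWt k n (s i) := Finset.prod_nonneg fun _ _ => signWt_nonneg h0 h1 _

theorem sum_sign (f : SignType → ℝ) : ∑ s, f s = f 0 + f (-1) + f 1 := by
  have : (univ : Finset SignType) = {0, -1, 1} := rfl
  rw [this, Finset.sum_insert (by decide), Finset.sum_insert (by decide), Finset.sum_singleton,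
    add_assoc]

theorem sum_prod_sign {n : ℕ} (h : Fin n → SignType → ℝ) :
    ∑ s : Fin n → SignType, ∏ i, h i (s i) = ∏ i, ∑ σ, h i σ := by
  rw [Finset.prod_univ_sum, Fintype.piFinset_univ]

theorem sum_signWt {k : ℝ} {n : ℕ} (hn : n ≠ 0) : ∑ σ, signWt k n σ = 1 := by
  rw [sum_sign]
  have h1 : ((-1 : SignType)) ≠ 0 := by decide
  have h2 : ((1 : SignType)) ≠ 0 := by decide
  simp only [signWt, if_true, h1, h2, if_false]
  have : (n : ℝ) ≠ 0 := by exact_mod_cast hn
  field_simp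
  ring

theorem wt_sum {k : ℝ} {n : ℕ} (hn : n ≠ 0) :
    ∑ s : Fin n → SignType, ∏ i, signWt k n (s i) = 1 := by
  rw [sum_prod_sign (fun _ σ => signWt k n σ)]
  exact Finset.prod_eq_one fun _ _ => sum_signWt hn

theorem EX_mono {n : ℕ} {k : ℝ} (h0 : 0 ≤ k) (h1 : k ≤ n) {F G : (Fin n → SignType) → ℝ}
    (h : ∀ s, F s ≤ G s) : EX n k F ≤ EX n k G :=
  Finset.sum_le_sum fun s _ => mul_le_mul_of_nonneg_left (h s) (wt_nonneg h0 h1 s)

theorem EX_add {n : ℕ} {k : ℝ} (F G : (Fin n → SignType) → ℝ) :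
    EX n k (fun s => F s + G s) = EX n k F + EX n k G := by
  unfold EX
  rw [← Finset.sum_add_distrib]
  exact Finset.sum_congr rfl fun s _ => by ring

theorem EX_mul {n : ℕ} {k : ℝ} (c : ℝ) (F : (Fin n → SignType) → ℝ) :
    EX n k (fun s => c * F s) = c * EX n k F := by
  unfold EX
  rw [Finset.mul_sum]
  exact Finset.sum_congr rfl fun s _ => by ring

theorem EX_sum {n : ℕ} {k : ℝ} {κ : Type} (S : Finset κ) (F : κ → (Fin n → SignType) → ℝ) :
    EX n k (fun s => ∑ i ∈ S, F i s) = ∑ i ∈ S, EX n k (F i) := by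
  unfold EX
  simp only [Finset.mul_sum]
  rw [Finset.sum_comm]

theorem EX_const {n : ℕ} (hn : n ≠ 0) {k : ℝ} (c : ℝ) : EX n k (fun _ => c) = c := by
  unfold EX
  rw [← Finset.sum_mul, wt_sum hn, one_mul]

/-- the squares of the coordinates -/
def xsq {n : ℕ} (k : ℝ) (s : Fin n → SignType) (i : Fin n) : ℝ := ((s i : ℝ) / √k) ^ 2

theorem xsq_nonneg {n : ℕ} (k : ℝ) (s : Fin n → SignType) (i : Fin n) : 0 ≤ xsq k s i :=
  sq_nonneg _

theorem xsq_le {n : ℕ} {k : ℝ} (hk : 0 < k) (s : Fin n → SignType) (i : Fin n) :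
    xsq k s i ≤ 1 / k := by
  unfold xsq
  rw [div_pow, Real.sq_sqrt hk.le]
  apply div_le_div_of_nonneg_right _ hk.le
  cases s i <;> simp

theorem EX_prod {n : ℕ} (hn : n ≠ 0) {k : ℝ} (hk : 0 < k) (A : Finset (Fin n)) :
    EX n k (fun s => ∏ i ∈ A, xsq k s i) = (1 / n) ^ A.card := by
  have h1 : EX n k (fun s => ∏ i ∈ A, xsq k s i) = ∑ s : Fin n → SignType,
      ∏ i, (fun i σ => signWt k n σ * (if i ∈ A then ((σ : ℝ) / √k) ^ 2 else 1)) i (s i) := by
    unfold EX
    refine Finset.sum_congr rfl fun s _ => ?_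
    rw [Finset.prod_mul_distrib, Finset.prod_ite_mem, Finset.univ_inter]
    rfl
  rw [h1, sum_prod_sign (fun i σ => signWt k n σ * (if i ∈ A then ((σ : ℝ) / √k) ^ 2 else 1))]
  have hn' : (n : ℝ) ≠ 0 := by exact_mod_cast hn
  have h2 : ∀ i, ∑ σ, signWt k n σ * (if i ∈ A then ((σ : ℝ) / √k) ^ 2 else 1)
      = if i ∈ A then 1 / (n : ℝ) else 1 := by
    intro i
    split_ifs
    · rw [sum_sign]
      have e1 : ((-1 : SignType)) ≠ 0 := by decide
      have e2 : ((1 : SignType)) ≠ 0 := by decide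
      simp only [signWt, if_true, e1, e2, if_false, div_pow, Real.sq_sqrt hk.le]
      simp
      field_simp
      ring
    · simp only [mul_one]
      exact sum_signWt hn
  rw [Finset.prod_congr rfl fun i _ => h2 i, Finset.prod_ite_mem, Finset.univ_inter,
    Finset.prod_const]

theorem EX_inj {n : ℕ} (hn : n ≠ 0) {k : ℝ} (hk : 0 < k) {q : ℕ} (a : Fin q ↪ Fin n) :
    EX n k (fun s => ∏ t, xsq k s (a t)) = (1 / n) ^ q := by
  have h := EX_prod hn hk ((univ : Finset (Fin q)).map a)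
  simp only [Finset.prod_map, Finset.card_map, Finset.card_univ, Fintype.card_fin] at h
  exact h

/-- the moments of `|x|²` -/
def mX (n : ℕ) (k : ℝ) (q : ℕ) : ℝ := EX n k (fun s => (∑ i, xsq k s i) ^ q)

theorem EX_injSum_le {n : ℕ} (hn : n ≠ 0) {k : ℝ} (hk : 0 < k) (q : ℕ) :
    EX n k (fun s => injSum (xsq k s) q) ≤ 1 := by
  unfold injSum
  rw [EX_sum, Finset.sum_congr rfl fun a _ => EX_inj hn hk a, Finset.sum_const, Finset.card_univ,
    Fintype.card_embedding_eq, Fintype.card_fin, Fintype.card_fin, nsmul_eq_mul]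
  have hn' : (0 : ℝ) < n := by exact_mod_cast Nat.pos_of_ne_zero hn
  have h1 : ((n.descFactorial q : ℕ) : ℝ) ≤ (n : ℝ) ^ q := by
    exact_mod_cast Nat.descFactorial_le_pow n q
  rw [one_div, inv_pow, ← div_eq_mul_inv]
  exact div_le_one_of_le₀ h1 (by positivity)

theorem mX_succ {n : ℕ} (hn : n ≠ 0) {k : ℝ} (hk : 0 < k) (hkn : k ≤ n) (q : ℕ) :
    mX n k (q + 1) ≤ 1 + q ^ 2 * (1 / k) * mX n k q := by
  calc mX n k (q + 1) ≤ EX n k (fun s => injSum (xsq k s) (q + 1)
        + q ^ 2 * (1 / k) * (∑ i, xsq k s i) ^ q) := by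
        apply EX_mono hk.le hkn
        intro s
        exact pow_le_injSum (xsq_nonneg k s) (by positivity) (xsq_le hk s) q
    _ = EX n k (fun s => injSum (xsq k s) (q + 1)) + q ^ 2 * (1 / k) * mX n k q := by
        rw [EX_add, EX_mul]; rfl
    _ ≤ _ := by
        have := EX_injSum_le hn hk (q + 1)
        linarith

/-- constants -/
def cX : ℕ → ℝ
  | 0 => 1
  | q + 1 => 1 + q ^ 2 * cX q

theorem cX_pos (q : ℕ) : 0 < cX q := by
  induction q with
  | zero => simp [cX]
  | succ q ih => unfold cX; positivity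

theorem mX_le {n : ℕ} (hn : n ≠ 0) {k : ℝ} (hk : 1 ≤ k) (hkn : k ≤ n) (q : ℕ) :
    mX n k q ≤ cX q := by
  induction q with
  | zero =>
    unfold mX cX
    simp only [pow_zero]
    rw [EX_const hn]
  | succ q ih =>
    refine (mX_succ hn (by linarith) hkn q).trans ?_
    unfold cX
    have h1 : (q : ℝ) ^ 2 * (1 / k) * mX n k q ≤ (q : ℝ) ^ 2 * 1 * cX q := by
      have h2 : 1 / k ≤ 1 := by rw [div_le_one (by linarith)]; exact hk
      have h3 : 0 ≤ mX n k q := by
        unfold mX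
        have := EX_mono (n := n) (k := k) (by linarith) hkn (F := fun _ => (0 : ℝ))
          (G := fun s => (∑ i, xsq k s i) ^ q)
          (fun s => pow_nonneg (Finset.sum_nonneg fun i _ => xsq_nonneg k s i) q)
        rwa [EX_const hn] at this
      have h4 : (q : ℝ) ^ 2 * (1 / k) ≤ (q : ℝ) ^ 2 * 1 :=
        mul_le_mul_of_nonneg_left h2 (by positivity)
      exact mul_le_mul h4 ih h3 (by positivity)
    linarith

theorem mX_nonneg {n : ℕ} (hn : n ≠ 0) {k : ℝ} (hk : 0 < k) (hkn : k ≤ n) (q : ℕ) :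
    0 ≤ mX n k q := by
  unfold mX
  have := EX_mono (n := n) (k := k) hk.le hkn (F := fun _ => (0 : ℝ))
    (G := fun s => (∑ i, xsq k s i) ^ q)
    (fun s => pow_nonneg (Finset.sum_nonneg fun i _ => xsq_nonneg k s i) q)
  rwa [EX_const hn] at this

theorem mX_le' {n : ℕ} (hn : n ≠ 0) {k : ℝ} (hk : 1 ≤ k) (hkn : k ≤ n) (q : ℕ) :
    mX n k (q + 1) ≤ 1 + q ^ 2 * cX q / k := by
  refine (mX_succ hn (by linarith) hkn q).trans ?_
  have h1 := mX_le hn hk hkn q
  have h2 : (q : ℝ) ^ 2 * (1 / k) * mX n k q ≤ (q : ℝ) ^ 2 * (1 / k) * cX q :=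
    mul_le_mul_of_nonneg_left h1 (by positivity)
  have h3 : (q : ℝ) ^ 2 * (1 / k) * cX q = q ^ 2 * cX q / k := by ring
  linarith

/-! ### The Gaussian factor -/

/-- the moments of `|u|²` -/
def mU (N q : ℕ) : ℝ := ∫ u, (∑ j, u j ^ 2) ^ q ∂(muU N)

theorem muU_nice {N : ℕ} (j : Fin N) : Nice (muU N) (fun u => u j) := null_nice j

theorem U_nice (N : ℕ) : Nice (muU N) (fun u => ∑ j, u j ^ 2) :=
  Nice.sum univ fun j _ => (muU_nice j).pow 2

theorem U_prod {N : ℕ} (A : Finset (Fin N)) :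
    ∫ u, ∏ j ∈ A, u j ^ 2 ∂(muU N) = 1 := by
  have h := null_hval A A
  rw [if_pos rfl] at h
  rw [← h]
  unfold muU
  congr 1
  funext u
  rw [← Finset.prod_mul_distrib]
  exact Finset.prod_congr rfl fun j _ => by ring

theorem U_inj {N q : ℕ} (b : Fin q ↪ Fin N) : ∫ u, ∏ t, u (b t) ^ 2 ∂(muU N) = 1 := by
  have h := U_prod ((univ : Finset (Fin q)).map b)
  simp only [Finset.prod_map] at h
  exact h

/-- a high moment -/
def cU (q : ℕ) : ℝ := 1 + q * ∫ x, (x ^ 2) ^ q ∂(gaussianReal 0 1)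

theorem cU_ge (q : ℕ) : 1 ≤ cU q := by
  unfold cU
  have : 0 ≤ ∫ x : ℝ, (x ^ 2) ^ q ∂(gaussianReal 0 1) := integral_nonneg fun x => by positivity
  have : 0 ≤ (q : ℝ) * ∫ x, (x ^ 2) ^ q ∂(gaussianReal 0 1) := by positivity
  linarith

theorem prod_le_sum_pow {q : ℕ} (w : Fin q → ℝ) (hw : ∀ t, 0 ≤ w t) :
    ∏ t, w t ≤ 1 + ∑ t, w t ^ q := by
  rcases Nat.eq_zero_or_pos q with rfl | hq
  · simp
  · have : Nonempty (Fin q) := ⟨⟨0, hq⟩⟩
    obtain ⟨t0, -, ht0⟩ := Finset.exists_max_image (univ : Finset (Fin q)) w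
      Finset.univ_nonempty
    calc ∏ t, w t ≤ ∏ _t : Fin q, w t0 :=
          Finset.prod_le_prod (fun t _ => hw t) fun t _ => ht0 t (Finset.mem_univ _)
      _ = w t0 ^ q := by rw [Finset.prod_const, Finset.card_univ, Fintype.card_fin]
      _ ≤ ∑ t, w t ^ q := Finset.single_le_sum (f := fun t => w t ^ q)
          (fun t _ => pow_nonneg (hw t) q) (Finset.mem_univ t0)
      _ ≤ _ := by linarith

theorem U_moment {N : ℕ} (q : ℕ) (j : Fin N) :
    ∫ u, (u j ^ 2) ^ q ∂(muU N) = ∫ x, (x ^ 2) ^ q ∂(gaussianReal 0 1) := by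
  have h := (measurePreserving_eval (fun _ : Fin N => gaussianReal 0 1) j)
  have h2 := integral_map (μ := Measure.pi fun _ : Fin N => gaussianReal 0 1)
    (φ := Function.eval j) (measurable_pi_apply j).aemeasurable (f := fun x : ℝ => (x ^ 2) ^ q)
    (by apply Measurable.aestronglyMeasurable; fun_prop)
  rw [h.map_eq] at h2
  exact h2.symm

theorem U_all {N q : ℕ} (b : Fin q → Fin N) : ∫ u, ∏ t, u (b t) ^ 2 ∂(muU N) ≤ cU q := by
  have h1 : ∀ j : Fin N, Nice (muU N) (fun u => (u j ^ 2) ^ q) := fun j => ((muU_nice j).pow 2).pow q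
  calc ∫ u, ∏ t, u (b t) ^ 2 ∂(muU N) ≤ ∫ u, (1 + ∑ t, (u (b t) ^ 2) ^ q) ∂(muU N) := by
        apply integral_mono
        · exact (Nice.prod univ fun t _ => (muU_nice (b t)).pow 2).integrable
        · exact ((Nice.const 1).add (Nice.sum univ fun t _ => h1 (b t))).integrable
        · intro u
          exact prod_le_sum_pow (fun t => u (b t) ^ 2) (fun t => sq_nonneg _)
    _ = cU q := by
        rw [integral_add (integrable_const _) (Nice.sum univ fun t _ => h1 (b t)).integrable,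
          integral_finsetSum _ fun t _ => (h1 (b t)).integrable]
        simp only [U_moment]
        unfold cU
        simp

open Classical in
theorem mU_le (N q : ℕ) :
    mU N q ≤ (N.descFactorial q : ℕ) + ((N : ℝ) ^ q - (N.descFactorial q : ℕ)) * cU q := by
  have h1 : ∀ u : Fin N → ℝ, (∑ j, u j ^ 2) ^ q = ∑ b : Fin q → Fin N, ∏ t, u (b t) ^ 2 := by
    intro u
    rw [← Fin.prod_const, Finset.prod_univ_sum, Fintype.piFinset_univ]
  unfold mU
  simp only [h1]
  rw [integral_finsetSum _ fun b _ =>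
    (Nice.prod univ fun t _ => (muU_nice (b t)).pow 2).integrable]
  rw [← Finset.sum_filter_add_sum_filter_not univ (fun b : Fin q → Fin N => Function.Injective b)]
  have hcard : ((univ : Finset (Fin q → Fin N)).filter fun b => Function.Injective b).card
      = N.descFactorial q := by
    rw [← Fintype.card_subtype, Fintype.card_congr (Equiv.subtypeInjectiveEquivEmbedding (Fin q)
      (Fin N)), Fintype.card_embedding_eq, Fintype.card_fin, Fintype.card_fin]
  have hcard2 : (((univ : Finset (Fin q → Fin N)).filter fun b => ¬ Function.Injective b).card : ℝ)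
      = (N : ℝ) ^ q - (N.descFactorial q : ℕ) := by
    have h2 := Finset.card_filter_add_card_filter_not (s := (univ : Finset (Fin q → Fin N)))
      (fun b => Function.Injective b)
    rw [Finset.card_univ, Fintype.card_fun, Fintype.card_fin, Fintype.card_fin, hcard] at h2
    have h3 : ((N ^ q : ℕ) : ℝ) = (N.descFactorial q : ℕ)
        + (((univ : Finset (Fin q → Fin N)).filter fun b => ¬ Function.Injective b).card : ℝ) := by
      rw [← h2]; push_cast; ring
    push_cast at h3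
    linarith
  apply add_le_add
  · rw [← hcard]
    rw [Finset.sum_congr rfl (g := fun _ => (1 : ℝ))]
    · simp
    · intro b hb
      rw [Finset.mem_filter] at hb
      exact U_inj ⟨b, hb.2⟩
  · rw [← hcard2, ← nsmul_eq_mul, ← Finset.sum_const]
    exact Finset.sum_le_sum fun b _ => U_all b

theorem mU_nonneg (N q : ℕ) : 0 ≤ mU N q :=
  integral_nonneg fun u => pow_nonneg (Finset.sum_nonneg fun j _ => sq_nonneg _) q

theorem mU_le' (N q : ℕ) : mU N q ≤ cU q * (N : ℝ) ^ q := by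
  refine (mU_le N q).trans ?_
  have h1 := cU_ge q
  have h2 : ((N.descFactorial q : ℕ) : ℝ) ≤ (N : ℝ) ^ q := by
    exact_mod_cast Nat.descFactorial_le_pow N q
  have h3 : (0 : ℝ) ≤ (N.descFactorial q : ℕ) := Nat.cast_nonneg _
  nlinarith

end Pool.Agent.R563.SPca
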