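import Pool.Agent.R563.SPca.Defs

set_option autoImplicit false

/-! # A representation of the conditional law -/

noncomputable section

namespace Pool.Agent.R563.SPca

open MeasureTheory ProbabilityTheory Finset

/-! ### Functions all of whose moments are finite -/

/-- all moments are finite -/
def Nice {Ω : Type} [MeasurableSpace Ω] (ν : Measure Ω) (f : Ω → ℝ) : Prop :=
  AEStronglyMeasurable f ν ∧ ∀ m : ℕ, Integrable (fun ω => |f ω| ^ m) ν

variable {Ω : Type} [MeasurableSpace Ω] {ν : Measure Ω}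

theorem Nice.integrable {f : Ω → ℝ} (hf : Nice ν f) : Integrable f ν := by
  have h1 := hf.2 1
  simp only [pow_one] at h1
  exact (integrable_norm_iff hf.1).1 h1

theorem Nice.sq {f : Ω → ℝ} (hf : Nice ν f) : MemLp f 2 ν := by
  rw [memLp_two_iff_integrable_sq hf.1]
  have := hf.2 2
  simpa only [sq_abs] using this

theorem Nice.const [IsFiniteMeasure ν] (c : ℝ) : Nice ν (fun _ => c) :=
  ⟨aestronglyMeasurable_const, fun _ => integrable_const _⟩

theorem Nice.mul {f g : Ω → ℝ} (hf : Nice ν f) (hg : Nice ν g) : Nice ν (fun ω => f ω * g ω) := by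
  refine ⟨hf.1.mul hg.1, fun m => ?_⟩
  refine Integrable.mono' ((hf.2 (2 * m)).add (hg.2 (2 * m)))
    ((continuous_abs.comp_aestronglyMeasurable (hf.1.mul hg.1)).pow m) ?_
  refine Filter.Eventually.of_forall fun ω => ?_
  simp only [Pi.add_apply, Real.norm_eq_abs, abs_mul, abs_pow, abs_abs, pow_mul]
  rw [mul_pow]
  have e1 : |f ω| ^ (2 * m) = (|f ω| ^ m) ^ 2 := by rw [← pow_mul, mul_comm]
  have e2 : |g ω| ^ (2 * m) = (|g ω| ^ m) ^ 2 := by rw [← pow_mul, mul_comm]
  rw [← pow_mul, ← pow_mul, e1, e2]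
  nlinarith [sq_nonneg (|f ω| ^ m - |g ω| ^ m), sq_nonneg (|f ω| ^ m), sq_nonneg (|g ω| ^ m)]

theorem Nice.add {f g : Ω → ℝ} (hf : Nice ν f) (hg : Nice ν g) : Nice ν (fun ω => f ω + g ω) := by
  refine ⟨hf.1.add hg.1, fun m => ?_⟩
  refine Integrable.mono' (((hf.2 m).add (hg.2 m)).const_mul (2 ^ (m - 1)))
    ((continuous_abs.comp_aestronglyMeasurable (hf.1.add hg.1)).pow m) ?_
  refine Filter.Eventually.of_forall fun ω => ?_
  simp only [Pi.add_apply, Real.norm_eq_abs, abs_pow, abs_abs]
  exact (pow_le_pow_left₀ (abs_nonneg _) (abs_add_le _ _) m).trans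
    (add_pow_le (abs_nonneg _) (abs_nonneg _) m)

theorem Nice.prod [IsFiniteMeasure ν] {κ : Type} (S : Finset κ) {f : κ → Ω → ℝ}
    (hf : ∀ k ∈ S, Nice ν (f k)) : Nice ν (fun ω => ∏ k ∈ S, f k ω) := by
  classical
  induction S using Finset.induction_on with
  | empty => simpa using Nice.const 1
  | insert a S ha ih =>
    simp only [Finset.prod_insert ha]
    exact (hf a (Finset.mem_insert_self _ _)).mul
      (ih fun k hk => hf k (Finset.mem_insert_of_mem hk))

theorem Nice.sum [IsFiniteMeasure ν] {κ : Type} (S : Finset κ) {f : κ → Ω → ℝ}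
    (hf : ∀ k ∈ S, Nice ν (f k)) : Nice ν (fun ω => ∑ k ∈ S, f k ω) := by
  classical
  induction S using Finset.induction_on with
  | empty => simpa using Nice.const 0
  | insert a S ha ih =>
    simp only [Finset.sum_insert ha]
    exact (hf a (Finset.mem_insert_self _ _)).add
      (ih fun k hk => hf k (Finset.mem_insert_of_mem hk))

theorem Nice.pow [IsFiniteMeasure ν] {f : Ω → ℝ} (hf : Nice ν f) (m : ℕ) :
    Nice ν (fun ω => f ω ^ m) := by
  have := Nice.prod (ν := ν) (Finset.range m) (f := fun _ => f) (fun _ _ => hf)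
  simpa using this

theorem Nice.eval [IsFiniteMeasure ν] {σ : Type} {Y : σ → Ω → ℝ} (hY : ∀ e, Nice ν (Y e))
    (p : MvPolynomial σ ℝ) : Nice ν (fun ω => MvPolynomial.eval (fun e => Y e ω) p) := by
  induction p using MvPolynomial.induction_on with
  | C a => simpa using Nice.const a
  | add p q hp hq => simpa using hp.add hq
  | mul_X p e hp => simpa using hp.mul (hY e)

theorem Nice.comp {Ω' : Type} [MeasurableSpace Ω'] {ν' : Measure Ω'} {g : Ω → Ω'}
    (hg : MeasurePreserving g ν ν') {f : Ω' → ℝ} (hf : Nice ν' f) : Nice ν (fun ω => f (g ω)) := by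
  refine ⟨hf.1.comp_quasiMeasurePreserving hg.quasiMeasurePreserving, fun m => ?_⟩
  exact (hg.integrable_comp (hf.2 m).1).2 (hf.2 m)

theorem Nice.gauss : Nice (gaussianReal 0 1) (fun x => x) := by
  refine ⟨measurable_id.aestronglyMeasurable, fun m => ?_⟩
  have h := (memLp_id_gaussianReal (μ := 0) (v := 1) (m : NNReal)).integrable_norm_pow'
  simpa using h

/-! ### The Gaussian noise -/

theorem gauss_one : ∫ x, x ∂(gaussianReal 0 1) = 0 := integral_id_gaussianReal

theorem gauss_two : ∫ x, x ^ 2 ∂(gaussianReal 0 1) = 1 := by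
  have h := variance_id_gaussianReal (μ := 0) (v := 1)
  rw [variance_eq_integral measurable_id.aemeasurable] at h
  simp only [id_eq, integral_id_gaussianReal, sub_zero, NNReal.coe_one] at h
  exact h

/-- products of functions of one entry -/
theorem gauss_pair (P Q : Prop) [Decidable P] [Decidable Q] :
    ∫ x, (if P then x else 1) * (if Q then x else 1) ∂(gaussianReal 0 1)
      = if (P ↔ Q) then 1 else 0 := by
  by_cases hP : P
  · by_cases hQ : Q
    · simp only [hP, hQ, if_true, ← pow_two, gauss_two]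
    · simp only [hP, hQ, if_true, if_false, mul_one, gauss_one, iff_false, not_true_eq_false]
  · by_cases hQ : Q
    · simp only [hP, hQ, if_true, if_false, one_mul, gauss_one, iff_true]
    · simp only [hP, hQ, if_false, one_mul, if_true]
      simp

/-- the null law has the required second moments -/
theorem null_hval {E : Type} [Fintype E] [DecidableEq E] (A B : Finset E) :
    ∫ ω : E → ℝ, (∏ e ∈ A, ω e) * ∏ e ∈ B, ω e ∂(Measure.pi fun _ => gaussianReal 0 1)
      = if A = B then 1 else 0 := by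
  have h1 : ∀ ω : E → ℝ, (∏ e ∈ A, ω e) * ∏ e ∈ B, ω e
      = ∏ e, (fun e x => (if e ∈ A then x else 1) * (if e ∈ B then x else 1)) e (ω e) := by
    intro ω
    rw [Finset.prod_mul_distrib, Finset.prod_ite_mem, Finset.prod_ite_mem, Finset.univ_inter,
      Finset.univ_inter]
  simp only [h1]
  rw [integral_fintype_prod_eq_prod
    (f := fun e x => (if e ∈ A then x else (1 : ℝ)) * (if e ∈ B then x else 1))]
  simp only [gauss_pair]
  rw [Finset.prod_boole]
  congr 1
  simp only [Finset.mem_univ, true_implies, Finset.ext_iff]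

theorem null_nice {E : Type} [Fintype E] [DecidableEq E] (e : E) :
    Nice (Measure.pi fun _ : E => gaussianReal 0 1) (fun ω => ω e) :=
  Nice.gauss.comp (measurePreserving_eval (fun _ : E => gaussianReal 0 1) e)

theorem null_hint {E : Type} [Fintype E] [DecidableEq E] (A B : Finset E) :
    Integrable (fun ω : E → ℝ => (∏ e ∈ A, ω e) * ∏ e ∈ B, ω e)
      (Measure.pi fun _ => gaussianReal 0 1) :=
  ((Nice.prod A fun e _ => null_nice e).mul (Nice.prod B fun e _ => null_nice e)).integrable

/-- the Gaussian noise in columns -/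
def muG (n N : ℕ) : Measure (Fin N → EuclideanSpace ℝ (Fin n)) :=
  Measure.pi fun _ => stdGaussian (EuclideanSpace ℝ (Fin n))

instance (n N : ℕ) : IsProbabilityMeasure (muG n N) := by unfold muG; infer_instance

/-- the Gaussian factor -/
def muU (N : ℕ) : Measure (Fin N → ℝ) := Measure.pi fun _ => gaussianReal 0 1

instance (N : ℕ) : IsProbabilityMeasure (muU N) := by unfold muU; infer_instance

/-- entries -/
def gE {n N : ℕ} (ω : Fin N → EuclideanSpace ℝ (Fin n)) (e : Fin n × Fin N) : ℝ := ω e.2 e.1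

theorem std_integral {n : ℕ} (h : Fin n → ℝ → ℝ) (hc : ∀ i, Measurable (h i)) :
    ∫ v : EuclideanSpace ℝ (Fin n), ∏ i, h i (v i) ∂(stdGaussian (EuclideanSpace ℝ (Fin n)))
      = ∏ i, ∫ x, h i x ∂(gaussianReal 0 1) := by
  rw [← map_pi_eq_stdGaussian, integral_map (by fun_prop)]
  · exact integral_fintype_prod_eq_prod (f := h)
  · apply Measurable.aestronglyMeasurable
    apply Finset.measurable_prod
    intro i _
    exact (hc i).comp (by fun_prop)

theorem std_nice {n : ℕ} (i : Fin n) :
    Nice (stdGaussian (EuclideanSpace ℝ (Fin n))) (fun v => v i) := by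
  refine ⟨(by fun_prop : Measurable fun v : EuclideanSpace ℝ (Fin n) =>
    v i).aestronglyMeasurable, fun m => ?_⟩
  rw [← map_pi_eq_stdGaussian, integrable_map_measure]
  · exact (null_nice i).2 m
  · apply Measurable.aestronglyMeasurable
    fun_prop
  · fun_prop

theorem muG_nice {n N : ℕ} (e : Fin n × Fin N) : Nice (muG n N) (fun ω => gE ω e) :=
  (std_nice e.1).comp (measurePreserving_eval
    (fun _ : Fin N => stdGaussian (EuclideanSpace ℝ (Fin n))) e.2)

theorem muG_hval {n N : ℕ} (A B : Finset (Fin n × Fin N)) :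
    ∫ ω, (∏ e ∈ A, gE ω e) * ∏ e ∈ B, gE ω e ∂(muG n N) = if A = B then 1 else 0 := by
  have h1 : ∀ ω : Fin N → EuclideanSpace ℝ (Fin n), (∏ e ∈ A, gE ω e) * ∏ e ∈ B, gE ω e
      = ∏ j, (fun j v => ∏ i, (fun i x => (if (i, j) ∈ A then x else 1) *
          (if (i, j) ∈ B then x else 1)) i ((v : EuclideanSpace ℝ (Fin n)) i)) j (ω j) := by
    intro ω
    have h2 : ∀ C : Finset (Fin n × Fin N), ∏ e ∈ C, gE ω e
        = ∏ j, ∏ i, if (i, j) ∈ C then ω j i else 1 := by
      intro C
      rw [Finset.prod_comm, ← Fintype.prod_prod_type'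
        (f := fun i j => if (i, j) ∈ C then ω j i else 1)]
      rw [Finset.prod_ite_mem, Finset.univ_inter]
      rfl
    rw [h2, h2, ← Finset.prod_mul_distrib]
    refine Finset.prod_congr rfl fun j _ => ?_
    rw [← Finset.prod_mul_distrib]
  simp only [h1]
  unfold muG
  rw [integral_fintype_prod_eq_prod (f := fun j v => ∏ i, (if (i, j) ∈ A then
    (v : EuclideanSpace ℝ (Fin n)) i else 1) * (if (i, j) ∈ B then v i else 1))]
  have h3 : ∀ j, ∫ v, ∏ i, (if (i, j) ∈ A then (v : EuclideanSpace ℝ (Fin n)) i else 1) *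
      (if (i, j) ∈ B then v i else 1) ∂(stdGaussian (EuclideanSpace ℝ (Fin n)))
      = ∏ i, if ((i, j) ∈ A ↔ (i, j) ∈ B) then 1 else 0 := by
    intro j
    rw [std_integral (fun i x => (if (i, j) ∈ A then x else (1 : ℝ)) *
      (if (i, j) ∈ B then x else 1))]
    · exact Finset.prod_congr rfl fun i _ => gauss_pair _ _
    · intro i
      split_ifs <;> fun_prop
  simp only [h3]
  simp only [Finset.prod_boole, Finset.mem_univ, true_implies]
  congr 1
  rw [eq_iff_iff, Finset.ext_iff]
  exact ⟨fun h ⟨i, j⟩ => h j i, fun h j i => h (i, j)⟩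

theorem muG_hint {n N : ℕ} (A B : Finset (Fin n × Fin N)) :
    Integrable (fun ω => (∏ e ∈ A, gE ω e) * ∏ e ∈ B, gE ω e) (muG n N) :=
  ((Nice.prod A fun e _ => muG_nice e).mul (Nice.prod B fun e _ => muG_nice e)).integrable

end Pool.Agent.R563.SPca
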